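import Pool.Agent.V11115.VC.F
import Pool.Agent.W715.VC.Limit

/-!
The traces of the operators of the braids `(u ū)^n` are at least `exp (n √(N / ℓ) / 20)` for large `N`.
-/

set_option autoImplicit false

namespace Pool.Agent.V11115.VC

open Finset Filter Topology Pool.Agent.H550R3.Jones Pool.Agent.W715.VC

/-- The explicit lower bound for `n = 1`. -/
lemma explicit {u : List (ℕ × Bool)} (hu : ∀ l ∈ u, l.1 < 2) (htr : 2 < (mat (u ++ dual u)).trace) {k N : ℕ}
    (hk1 : 1 ≤ k) (hk : 8 * u.length * (k * k) ≤ N) :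
    (2 : ℝ) ^ (k / 4) / 4 - (N : ℝ) ^ 3 - 2 ≤ ‖(rep3 N (u ++ dual u)).trace‖ := by
  refine (trace_large hu htr hk hk1).trans ?_
  exact (le_abs_self _).trans (Complex.abs_re_le_norm _)

lemma length_pos {u : List (ℕ × Bool)} (htr : 2 < (mat (u ++ dual u)).trace) : 1 ≤ u.length := by
  rcases Nat.eq_zero_or_pos u.length with h | h
  · rw [List.length_eq_zero_iff] at h
    subst h
    exact absurd htr (by decide)
  · exact h

/-- the bound with `y = √(N / ℓ)` -/
lemma in_y {u : List (ℕ × Bool)} (hu : ∀ l ∈ u, l.1 < 2) (htr : 2 < (mat (u ++ dual u)).trace) {N : ℕ}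
    (hN : 8 * u.length ≤ N) :
    Real.exp (3 / 50 * Real.sqrt (N / u.length)) / 8 - (N : ℝ) ^ 3 - 2 ≤ ‖(rep3 N (u ++ dual u)).trace‖ := by
  have hlen := length_pos htr
  set l := u.length with hl
  have hlR : (1 : ℝ) ≤ l := by exact_mod_cast hlen
  set y := Real.sqrt (N / l) with hy
  have hy0 : 0 ≤ y := Real.sqrt_nonneg _
  have hy2 : y * y = N / l := Real.mul_self_sqrt (by positivity)
  set k := Nat.sqrt (N / (8 * l)) with hk
  have hk2 : k * k ≤ N / (8 * l) := Nat.sqrt_le _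
  have hk3 : N / (8 * l) < (k + 1) * (k + 1) := Nat.lt_succ_sqrt _
  have h8 : 0 < 8 * l := by omega
  have hk4 : 8 * l * (k * k) ≤ N := by
    calc 8 * l * (k * k) ≤ 8 * l * (N / (8 * l)) := Nat.mul_le_mul_left _ hk2
      _ ≤ N := Nat.mul_div_le _ _
  have hk5 : N < (8 * l) * ((k + 1) * (k + 1)) := by
    rw [mul_comm]; exact (Nat.div_lt_iff_lt_mul h8).1 hk3
  have hk1 : 1 ≤ k := by
    by_contra h
    have : k = 0 := by omega
    rw [this] at hk5
    omega
  have hex := explicit hu htr hk1 hk4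
  have hky : 7 / 20 * y ≤ k + 1 := by
    have h1 : (N : ℝ) ≤ 8 * l * ((k + 1) * (k + 1)) := by exact_mod_cast hk5.le
    have h2 : y * y ≤ 8 * ((k + 1) * (k + 1)) := by
      rw [hy2, div_le_iff₀ (by linarith)]
      linarith
    by_contra hcon
    rw [not_le] at hcon
    have hk0 : (0 : ℝ) ≤ (k : ℝ) + 1 := by positivity
    nlinarith
  have hdiv : ((k : ℝ) - 3) / 4 ≤ ((k / 4 : ℕ) : ℝ) := by
    have : k ≤ 4 * (k / 4) + 3 := by omega
    have h1 : (k : ℝ) ≤ 4 * ((k / 4 : ℕ) : ℝ) + 3 := by exact_mod_cast this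
    linarith
  have hL1 : 6931 / 10000 < Real.log 2 := by have := Real.log_two_gt_d9; linarith
  have hL2 : Real.log 2 < 6932 / 10000 := by have := Real.log_two_lt_d9; linarith
  have h3 : Real.exp (3 / 50 * y) / 2 ≤ (2 : ℝ) ^ (k / 4) := by
    have e1 : (2 : ℝ) ^ (k / 4) = Real.exp (Real.log 2 * ((k / 4 : ℕ) : ℝ)) := by
      rw [Real.exp_mul, Real.exp_log (by norm_num), Real.rpow_natCast]
    have e2 : Real.exp (3 / 50 * y) / 2 = Real.exp (3 / 50 * y - Real.log 2) := by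
      rw [Real.exp_sub, Real.exp_log (by norm_num)]
    rw [e1, e2]
    refine Real.exp_le_exp.2 ?_
    have h4 : 7 / 80 * y - 1 ≤ ((k / 4 : ℕ) : ℝ) := by linarith
    nlinarith
  linarith

/-- the growth, uniformly in nothing but `N` -/
lemma growth {u : List (ℕ × Bool)} (hu : ∀ l ∈ u, l.1 < 2) (htr : 2 < (mat (u ++ dual u)).trace) {n : ℕ}
    (hn : 1 ≤ n) : ∃ N₀ : ℕ, ∀ N : ℕ, N₀ ≤ N →
      Real.exp (n * Real.sqrt (N / u.length) / 20) ≤ ‖(rep3 N (wpow (u ++ dual u) n)).trace‖ := by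
  have hlen := length_pos htr
  have hlR : (1 : ℝ) ≤ u.length := by exact_mod_cast hlen
  set l : ℝ := (u.length : ℝ) with hl
  -- `y` tends to infinity
  have hy : Tendsto (fun N : ℕ => Real.sqrt (N / l)) atTop atTop :=
    Real.tendsto_sqrt_atTop.comp
      (tendsto_natCast_atTop_atTop.atTop_div_const (by linarith))
  have ho := (isLittleO_pow_exp_pos_mul_atTop 6 (by norm_num : (0 : ℝ) < 1 / 100)).comp_tendsto hy
  have hev := ho.bound (by positivity : (0 : ℝ) < 1 / (40 * l ^ 3))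
  obtain ⟨N₀, hN₀⟩ := eventually_atTop.1 (hev.and ((eventually_ge_atTop (8 * u.length)).and
    (eventually_ge_atTop 1)))
  refine ⟨N₀, fun N hN => ?_⟩
  obtain ⟨h1, h2, h3⟩ := hN₀ N hN
  have hin := in_y hu htr h2
  rw [← hl] at hin
  set y := Real.sqrt (N / l) with hydef
  have hy0 : 0 ≤ y := Real.sqrt_nonneg _
  have hNR : (1 : ℝ) ≤ N := by exact_mod_cast h3
  have hy2 : y ^ 2 = N / l := Real.sq_sqrt (by positivity)
  have hN3 : (N : ℝ) ^ 3 = l ^ 3 * y ^ 6 := by
    have : (N : ℝ) = l * y ^ 2 := by rw [hy2]; field_simp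
    rw [this]; ring
  have h4 : 40 * (N : ℝ) ^ 3 ≤ Real.exp (1 / 100 * y) := by
    simp only [Function.comp_apply, Real.norm_eq_abs, Real.abs_exp] at h1
    rw [← hydef, abs_of_nonneg (by positivity)] at h1
    rw [hN3]
    rw [div_mul_eq_mul_div, one_mul, le_div_iff₀ (by positivity)] at h1
    linarith
  set E := Real.exp (y / 20) with hE
  have hE1 : 1 ≤ E := Real.one_le_exp (by positivity)
  have hN31 : (1 : ℝ) ≤ (N : ℝ) ^ 3 := one_le_pow₀ hNR
  have h5 : Real.exp (3 / 50 * y) = Real.exp (1 / 100 * y) * E := by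
    rw [hE, ← Real.exp_add]; congr 1; ring
  have h6 : 2 * (N : ℝ) ^ 3 * E ≤ ‖(rep3 N (u ++ dual u)).trace‖ := by
    have h7 : 40 * (N : ℝ) ^ 3 * E ≤ Real.exp (1 / 100 * y) * E :=
      mul_le_mul_of_nonneg_right h4 (by positivity)
    rw [h5] at hin
    have h8 : (N : ℝ) ^ 3 ≤ (N : ℝ) ^ 3 * E := le_mul_of_one_le_right (by positivity) hE1
    nlinarith
  obtain ⟨-, hb⟩ := trace_bounds (N := N) (by omega) hu (n := n) (by omega)
  have h7 : 2 * E ≤ ‖(rep3 N (u ++ dual u)).trace‖ / (N : ℝ) ^ 3 := by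
    rw [le_div_iff₀ (by positivity)]
    linarith
  have h8 : 2 * E ^ n ≤ (‖(rep3 N (u ++ dual u)).trace‖ / (N : ℝ) ^ 3) ^ n := by
    refine le_trans ?_ (pow_le_pow_left₀ (by positivity) h7 n)
    rw [mul_pow]
    refine mul_le_mul_of_nonneg_right ?_ (by positivity)
    calc (2 : ℝ) = 2 ^ 1 := (pow_one _).symm
      _ ≤ 2 ^ n := pow_le_pow_right₀ (by norm_num) hn
  have h9 : (N : ℝ) ^ 3 ≤ E ^ n := by
    have h10 : Real.exp (1 / 100 * y) ≤ E := Real.exp_le_exp.2 (by linarith)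
    calc (N : ℝ) ^ 3 ≤ 40 * (N : ℝ) ^ 3 := by linarith
      _ ≤ E := h4.trans h10
      _ = E ^ 1 := (pow_one _).symm
      _ ≤ E ^ n := pow_le_pow_right₀ hE1 hn
  have h10 : Real.exp (n * y / 20) = E ^ n := by
    rw [hE, ← Real.exp_nat_mul]; congr 1; ring
  rw [h10]
  linarith


/-- in particular the traces are larger than `N^3` -/
theorem eventually_large {u : List (ℕ × Bool)} (hu : ∀ l ∈ u, l.1 < 2)
    (htr : 2 < (mat (u ++ dual u)).trace) {n : ℕ} (hn : 1 ≤ n) :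
    ∀ᶠ N : ℕ in atTop, (N : ℝ) ^ 3 < ‖(rep3 N (wpow (u ++ dual u) n)).trace‖ := by
  obtain ⟨N₀, h⟩ := growth hu htr hn
  have hlen := length_pos htr
  have hlR : (1 : ℝ) ≤ u.length := by exact_mod_cast hlen
  set l : ℝ := (u.length : ℝ) with hl
  have hy : Tendsto (fun N : ℕ => Real.sqrt (N / l)) atTop atTop :=
    Real.tendsto_sqrt_atTop.comp
      (tendsto_natCast_atTop_atTop.atTop_div_const (by linarith))
  have ho := (isLittleO_pow_exp_pos_mul_atTop 6 (by norm_num : (0 : ℝ) < 1 / 20)).comp_tendsto hy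
  have hev := ho.bound (by positivity : (0 : ℝ) < 1 / (2 * l ^ 3))
  filter_upwards [hev, eventually_ge_atTop N₀, eventually_ge_atTop 1] with N h1 h2 h3
  refine lt_of_lt_of_le ?_ (h N h2)
  have hNR : (1 : ℝ) ≤ N := by exact_mod_cast h3
  set y := Real.sqrt (N / l) with hydef
  have hy0 : 0 ≤ y := Real.sqrt_nonneg _
  have hy2 : y ^ 2 = N / l := Real.sq_sqrt (by positivity)
  have hN3 : (N : ℝ) ^ 3 = l ^ 3 * y ^ 6 := by
    have : (N : ℝ) = l * y ^ 2 := by rw [hy2]; field_simp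
    rw [this]; ring
  have h4 : 2 * (N : ℝ) ^ 3 ≤ Real.exp (1 / 20 * y) := by
    simp only [Function.comp_apply, Real.norm_eq_abs, Real.abs_exp] at h1
    rw [← hydef, abs_of_nonneg (by positivity)] at h1
    rw [hN3]
    rw [div_mul_eq_mul_div, one_mul, le_div_iff₀ (by positivity)] at h1
    linarith
  have h5 : Real.exp (1 / 20 * y) ≤ Real.exp (n * y / 20) := by
    refine Real.exp_le_exp.2 ?_
    have hnR : (1 : ℝ) ≤ n := by exact_mod_cast hn
    nlinarith
  have h6 : (0 : ℝ) < (N : ℝ) ^ 3 := by positivity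
  linarith

end Pool.Agent.V11115.VC
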