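import Pool.Agent.W715.VC.Growth

/-!
The matrix of the second generator of the braid group on the spaces of highest weight vectors, in the
coordinates that diagonalise the form `H`.
-/

set_option autoImplicit false

namespace Pool.Agent.V11115.VC

open Matrix Finset Pool.Agent.H550R3.Jones Pool.Agent.W715.VC

variable {N : ℕ}

/-- the Gaussian binomial at the root of unity -/
noncomputable def qb (N : ℕ) (M : ℤ) (k : ℕ) : ℝ := ∏ l ∈ range k, (sn N (M - l) / sn N ((l : ℤ) + 1))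

lemma qb_zero (M : ℤ) : qb N M 0 = 1 := by simp [qb]

lemma qb_succ (M : ℤ) {k : ℕ} (hk : k + 1 < N) :
    sn N ((k : ℤ) + 1) * qb N M (k + 1) = sn N (M - k) * qb N M k := by
  have h : sn N ((k : ℤ) + 1) ≠ 0 := (sn_pos (by omega) (by omega)).ne'
  unfold qb
  rw [prod_range_succ]
  field_simp

lemma qb_shift (M : ℤ) (k : ℕ) : sn N M * qb N (M - 1) k = sn N (M - k) * qb N M k := by
  induction k with
  | zero => simp [qb]
  | succ k ih =>
    have e1 : qb N (M - 1) (k + 1) = qb N (M - 1) k * (sn N (M - 1 - k) / sn N ((k : ℤ) + 1)) := by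
      unfold qb; rw [prod_range_succ]
    have e2 : qb N M (k + 1) = qb N M k * (sn N (M - k) / sn N ((k : ℤ) + 1)) := by
      unfold qb; rw [prod_range_succ]
    have e3 : M - 1 - (k : ℤ) = M - ((k + 1 : ℕ) : ℤ) := by push_cast; ring
    rw [e1, e2, e3, ← mul_assoc, ih]
    ring

/-! ### the coordinate `x (0, m, 0)` -/

noncomputable def Sb (N m : ℕ) (x : I3 N → ℂ) (b : ℕ) : ℂ :=
  ∑ a ∈ range (m - b + 1), rt N ^ (((m : ℤ) - b - a) ^ 2 - a * ((m : ℤ) + b)) * hat x a b (m - b - a)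

lemma Sb_step {m : ℕ} (hm : m < N) {x : I3 N → ℂ} (hx : InK m x) {b : ℕ} (hb : b < m) :
    br (rt N) ((b : ℤ) + 1) * Sb N m x (b + 1) = br (rt N) ((m : ℤ) - b) * Sb N m x b := by
  have hN : 0 < N := by omega
  have h0 := rt_ne N
  obtain ⟨n, hn⟩ : ∃ n, m = b + n + 1 := ⟨m - b - 1, by omega⟩
  have hvN : rt N ^ (N : ℤ) = -1 := rt_zpow_N hN
  unfold Sb
  have e1 : m - (b + 1) + 1 = n + 1 := by omega
  have e2 : m - b + 1 = (n + 1) + 1 := by omega
  rw [e1, e2]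
  set T1 : ℕ → ℂ := fun a => rt N ^ (((m : ℤ) - b - a) ^ 2 - a * ((m : ℤ) + b) + (m - b - a)) *
    (br (rt N) a * hat x a b (m - b - a)) with hT1
  set T2 : ℕ → ℂ := fun a => rt N ^ (((m : ℤ) - b - a) ^ 2 - a * ((m : ℤ) + b) - a) *
    (br (rt N) ((m : ℤ) - b - a) * hat x a b (m - b - a)) with hT2
  have hsum : ∑ a ∈ range (n + 1 + 1), (T1 a + T2 a) =
      ∑ a ∈ range (n + 1), (T1 (a + 1) + T2 a) := by
    rw [sum_add_distrib, sum_add_distrib, sum_range_succ' T1 (n + 1), sum_range_succ T2 (n + 1)]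
    have z1 : T1 0 = 0 := by
      simp only [hT1]
      rw [Nat.cast_zero, br_zero]; ring
    have z2 : T2 (n + 1) = 0 := by
      simp only [hT2]
      have : (m : ℤ) - b - ((n + 1 : ℕ) : ℤ) = 0 := by rw [hn]; push_cast; ring
      rw [this, br_zero]; ring
    rw [z1, z2]; ring
  rw [mul_sum, mul_sum]
  have hR : ∑ a ∈ range (n + 1 + 1), br (rt N) ((m : ℤ) - b) *
      (rt N ^ (((m : ℤ) - b - a) ^ 2 - a * ((m : ℤ) + b)) * hat x a b (m - b - a)) =
      ∑ a ∈ range (n + 1 + 1), (T1 a + T2 a) := by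
    refine sum_congr rfl fun a ha => ?_
    simp only [hT1, hT2]
    set E : ℤ := ((m : ℤ) - b - a) ^ 2 - a * ((m : ℤ) + b) with hE
    have k1 : rt N ^ (E + ((m : ℤ) - b - a)) = rt N ^ E * rt N ^ ((m : ℤ) - b - a) := zpow_add₀ h0 _ _
    have k2 : rt N ^ (E - (a : ℤ)) = rt N ^ E * rt N ^ (-(a : ℤ)) := by
      rw [sub_eq_add_neg, zpow_add₀ h0]
    have k3 : br (rt N) ((m : ℤ) - b) = rt N ^ ((m : ℤ) - b - a) * br (rt N) a +
        rt N ^ (-(a : ℤ)) * br (rt N) ((m : ℤ) - b - a) := by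
      unfold br
      have q1 : rt N ^ ((m : ℤ) - b) = rt N ^ ((m : ℤ) - b - a) * rt N ^ (a : ℤ) := by
        rw [← zpow_add₀ h0]; congr 1; ring
      have q2 : rt N ^ (-((m : ℤ) - b)) = rt N ^ (-(a : ℤ)) * rt N ^ (-((m : ℤ) - b - a)) := by
        rw [← zpow_add₀ h0]; congr 1; ring
      rw [q1, q2]
      ring
    rw [k1, k2, k3]
    ring
  rw [hR, hsum]
  refine sum_congr rfl fun a ha => ?_
  rw [mem_range] at ha
  obtain ⟨c, hc⟩ : ∃ c, n = a + c := ⟨n - a, by omega⟩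
  have hrel := rel hN hx a b c
  have d1 : m - (b + 1) - a = c := by omega
  have d2 : m - b - (a + 1) = c := by omega
  have d3 : m - b - a = c + 1 := by omega
  simp only [hT1, hT2]
  rw [d1, d2, d3]
  set X1 := hat x (a + 1) b c
  set X2 := hat x a (b + 1) c
  set X3 := hat x a b (c + 1)
  have hmz : (m : ℤ) = b + (a + c) + 1 := by rw [hn, hc]; push_cast; ring
  have f1 : (m : ℤ) - b - a = c + 1 := by rw [hmz]; ring
  have f2 : (m : ℤ) - b - ((a + 1 : ℕ) : ℤ) = c := by rw [hmz]; push_cast; ring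
  have f3 : (m : ℤ) - ((b + 1 : ℕ) : ℤ) - a = c := by rw [hmz]; push_cast; ring
  rw [f1, f2, f3]
  have g1 : rt N ^ (2 * (N : ℤ) - 2 - 2 * b - 2 * c) = rt N ^ (-(2 * (b : ℤ) + 2 * c + 2)) := by
    have : 2 * (N : ℤ) - 2 - 2 * b - 2 * c = 2 * (N : ℤ) + (-(2 * (b : ℤ) + 2 * c + 2)) := by ring
    rw [this, rt_2N hN]
  have g2 : rt N ^ ((N : ℤ) - 1 - 2 * c) = - rt N ^ (-(2 * (c : ℤ) + 1)) := by
    have : (N : ℤ) - 1 - 2 * c = (N : ℤ) + (-(2 * (c : ℤ) + 1)) := by ring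
    rw [this, zpow_add₀ h0, hvN]; ring
  rw [g1, g2] at hrel
  -- multiply by a power of `v`
  set G : ℤ := ((c : ℤ)) ^ 2 - a * ((m : ℤ) + ((b + 1 : ℕ) : ℤ)) with hG
  have w1 : rt N ^ G = rt N ^ (-(2 * (c : ℤ) + 1)) * rt N ^ (G + (2 * c + 1)) := by
    rw [← zpow_add₀ h0]; congr 1; ring
  have w2 : rt N ^ (((c : ℤ)) ^ 2 - ((a + 1 : ℕ) : ℤ) * ((m : ℤ) + b) + c) =
      rt N ^ (-(2 * (b : ℤ) + 2 * c + 2)) * rt N ^ (G + (2 * c + 1)) := by
    rw [← zpow_add₀ h0]; congr 1; rw [hG, hmz]; push_cast; ring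
  have w3 : rt N ^ (((c : ℤ) + 1) ^ 2 - a * ((m : ℤ) + b) - a) = rt N ^ (G + (2 * c + 1)) := by
    congr 1; rw [hG]; push_cast; ring
  rw [w1, w2, w3]
  have c1 : (((a + 1 : ℕ) : ℤ)) = (a : ℤ) + 1 := by push_cast; ring
  rw [c1]
  linear_combination (-rt N ^ (G + (2 * c + 1))) * hrel

lemma M1 {m : ℕ} (hm : m < N) {x : I3 N → ℂ} (hx : InK m x) :
    hat x 0 m 0 = ∑ a ∈ range (m + 1), rt N ^ (((m : ℤ) - a) ^ 2 - a * (m : ℤ)) * hat x a 0 (m - a) := by
  have h0 := rt_ne N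
  have key : ∀ b, b ≤ m → (∏ l ∈ range b, br (rt N) ((l : ℤ) + 1)) * Sb N m x b =
      (∏ l ∈ range b, br (rt N) ((m : ℤ) - l)) * Sb N m x 0 := by
    intro b
    induction b with
    | zero => intro _; simp
    | succ b ih =>
      intro hb
      rw [prod_range_succ, prod_range_succ, mul_assoc, Sb_step hm hx (by omega)]
      have := ih (by omega)
      linear_combination br (rt N) ((m : ℤ) - b) * this
  have h1 := key m le_rfl
  have h2 : ∏ l ∈ range m, br (rt N) ((m : ℤ) - l) = ∏ l ∈ range m, br (rt N) ((l : ℤ) + 1) := by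
    rw [← prod_range_reflect]
    refine prod_congr rfl fun l hl => ?_
    rw [mem_range] at hl
    congr 1
    have : ((m - 1 - l : ℕ) : ℤ) = m - 1 - l := by omega
    rw [this]; ring
  rw [h2] at h1
  have h3 : ∏ l ∈ range m, br (rt N) ((l : ℤ) + 1) ≠ 0 := by
    refine prod_ne_zero_iff.2 fun l hl => ?_
    rw [mem_range] at hl
    exact br_ne (by omega) (by omega)
  have h4 := mul_left_cancel₀ h3 h1
  have h5 : Sb N m x m = hat x 0 m 0 := by
    unfold Sb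
    simp
  rw [← h5, h4]
  unfold Sb
  refine sum_congr (by rw [Nat.sub_zero]) fun a _ => ?_
  push_cast
  simp only [sub_zero, add_zero, Nat.sub_zero]

/-! ### the sum of products of Gaussian binomials -/

noncomputable def bn (N m n : ℕ) : ℂ :=
  ∑ k ∈ range (n + 1), rt N ^ (k : ℤ) * ((nu N m k : ℝ) : ℂ) * ((qb N m (n - k) : ℝ) : ℂ)

lemma nu_br {m k : ℕ} (hk : k + 1 < N) :
    br (rt N) ((k : ℤ) + 1) * ((nu N m (k + 1) : ℝ) : ℂ) =
      - (br (rt N) ((m : ℤ) + k + 1) * ((nu N m k : ℝ) : ℂ)) := by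
  have h := nu_succ (N := N) (m := m) hk
  have h2 : ((sn N ((k : ℤ) + 1) : ℝ) : ℂ) * ((nu N m (k + 1) : ℝ) : ℂ) =
      - ((sn N ((m : ℤ) + k + 1) : ℝ) : ℂ) * ((nu N m k : ℝ) : ℂ) := by exact_mod_cast h
  rw [br_rt, br_rt]
  linear_combination 2 * Complex.I * h2

lemma qb_br {M : ℤ} {k : ℕ} (hk : k + 1 < N) :
    br (rt N) ((k : ℤ) + 1) * ((qb N M (k + 1) : ℝ) : ℂ) =
      br (rt N) (M - k) * ((qb N M k : ℝ) : ℂ) := by
  have h := qb_succ (N := N) M hk
  have h2 : ((sn N ((k : ℤ) + 1) : ℝ) : ℂ) * ((qb N M (k + 1) : ℝ) : ℂ) =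
      ((sn N (M - k) : ℝ) : ℂ) * ((qb N M k : ℝ) : ℂ) := by exact_mod_cast h
  rw [br_rt, br_rt]
  linear_combination 2 * Complex.I * h2

lemma bn_eq (m : ℕ) {n : ℕ} (hn : n < N) : bn N m n = (-rt N ^ ((m : ℤ) + 1)) ^ n := by
  have h0 := rt_ne N
  induction n with
  | zero => simp [bn, nu_zero, qb_zero]
  | succ n ih =>
    have hbr : br (rt N) ((n : ℤ) + 1) ≠ 0 := br_ne (by omega) (by omega)
    have ih' := ih (by omega)
    suffices h : br (rt N) ((n : ℤ) + 1) * bn N m (n + 1) =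
        br (rt N) ((n : ℤ) + 1) * (-rt N ^ ((m : ℤ) + 1) * bn N m n) by
      rw [mul_left_cancel₀ hbr h, ih', pow_succ]; ring
    unfold bn
    rw [mul_sum, mul_sum, mul_sum]
    set U1 : ℕ → ℂ := fun k => rt N ^ ((n : ℤ) + 1) * (br (rt N) k * ((nu N m k : ℝ) : ℂ)) *
      ((qb N m (n + 1 - k) : ℝ) : ℂ) with hU1
    set U2 : ℕ → ℂ := fun k => ((nu N m k : ℝ) : ℂ) * (br (rt N) ((n : ℤ) + 1 - k) *
      ((qb N m (n + 1 - k) : ℝ) : ℂ)) with hU2
    have hL : ∑ k ∈ range (n + 1 + 1), br (rt N) ((n : ℤ) + 1) *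
        (rt N ^ (k : ℤ) * ((nu N m k : ℝ) : ℂ) * ((qb N m (n + 1 - k) : ℝ) : ℂ)) =
        ∑ k ∈ range (n + 1 + 1), (U1 k + U2 k) := by
      refine sum_congr rfl fun k _ => ?_
      simp only [hU1, hU2]
      have k3 : br (rt N) ((n : ℤ) + 1) * rt N ^ (k : ℤ) = rt N ^ ((n : ℤ) + 1) * br (rt N) k +
          br (rt N) ((n : ℤ) + 1 - k) := by
        unfold br
        have q1 : rt N ^ (-((n : ℤ) + 1)) * rt N ^ (k : ℤ) = rt N ^ (-((n : ℤ) + 1 - k)) := by
          rw [← zpow_add₀ h0]; congr 1; ring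
        have q2 : rt N ^ ((n : ℤ) + 1) * rt N ^ (-(k : ℤ)) = rt N ^ ((n : ℤ) + 1 - k) := by
          rw [← zpow_add₀ h0]; congr 1
        linear_combination -q1 + q2
      linear_combination ((nu N m k : ℝ) : ℂ) * ((qb N m (n + 1 - k) : ℝ) : ℂ) * k3
    have hsum : ∑ k ∈ range (n + 1 + 1), (U1 k + U2 k) =
        ∑ k ∈ range (n + 1), (U1 (k + 1) + U2 k) := by
      rw [sum_add_distrib, sum_add_distrib, sum_range_succ' U1 (n + 1), sum_range_succ U2 (n + 1)]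
      have z1 : U1 0 = 0 := by
        simp only [hU1]
        rw [Nat.cast_zero, br_zero]; ring
      have z2 : U2 (n + 1) = 0 := by
        simp only [hU2]
        have : (n : ℤ) + 1 - ((n + 1 : ℕ) : ℤ) = 0 := by push_cast; ring
        rw [this, br_zero]; ring
      rw [z1, z2]; ring
    rw [hL, hsum]
    refine sum_congr rfl fun k hk => ?_
    rw [mem_range] at hk
    simp only [hU1, hU2]
    have e1 : n + 1 - (k + 1) = n - k := by omega
    have e2 : n + 1 - k = (n - k) + 1 := by omega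
    have e3 : (n : ℤ) + 1 - k = ((n - k : ℕ) : ℤ) + 1 := by
      rw [Nat.cast_sub (by omega)]; ring
    have n1 := nu_br (N := N) (m := m) (k := k) (by omega)
    have n2 := qb_br (N := N) (M := (m : ℤ)) (k := n - k) (by omega)
    have e4 : (m : ℤ) - ((n - k : ℕ) : ℤ) = m - n + k := by rw [Nat.cast_sub (by omega)]; ring
    rw [e4] at n2
    rw [e1, e2, e3, n2]
    have c1 : (((k + 1 : ℕ) : ℤ)) = (k : ℤ) + 1 := by push_cast; ring
    rw [c1, n1]
    have k4 : -(rt N ^ ((n : ℤ) + 1) * br (rt N) ((m : ℤ) + k + 1)) + br (rt N) ((m : ℤ) - n + k) =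
        -(br (rt N) ((n : ℤ) + 1) * rt N ^ ((m : ℤ) + 1) * rt N ^ (k : ℤ)) := by
      unfold br
      have q1 : rt N ^ ((n : ℤ) + 1) * rt N ^ (-((m : ℤ) + k + 1)) =
          rt N ^ (-((m : ℤ) - n + k)) := by
        rw [← zpow_add₀ h0]; congr 1; ring
      have q2 : rt N ^ ((n : ℤ) + 1) * rt N ^ ((m : ℤ) + k + 1) =
          rt N ^ ((n : ℤ) + 1) * rt N ^ ((m : ℤ) + 1) * rt N ^ (k : ℤ) := by
        rw [mul_assoc, ← zpow_add₀ h0 ((m : ℤ) + 1)]; congr 2; ring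
      have q3 : rt N ^ (-((n : ℤ) + 1)) * rt N ^ ((m : ℤ) + 1) * rt N ^ (k : ℤ) =
          rt N ^ ((m : ℤ) - n + k) := by
        rw [← zpow_add₀ h0, ← zpow_add₀ h0]; congr 1; ring
      linear_combination q1 - q2 - q3
    linear_combination ((nu N m k : ℝ) : ℂ) * ((qb N m (n - k) : ℝ) : ℂ) * k4

end Pool.Agent.V11115.VC
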