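import Pool.Agent.V11115.VC.A

/-!
The matrices of `s_2` and of `s_1⁻¹` on the spaces of highest weight vectors.
-/

set_option autoImplicit false

namespace Pool.Agent.V11115.VC

open Matrix Finset Pool.Agent.H550R3.Jones Pool.Agent.W715.VC

variable {N : ℕ}

lemma LL_C23 {m : ℕ} (hm : m < N) {x : I3 N → ℂ} (hx : InK m x) {i : ℕ} (hi : i ≤ m) :
    LL N m i (C23 N *ᵥ x) = ((th N i : ℝ) : ℂ) * LL N m i x +
      ((gg N m ((i : ℤ) + 1) : ℝ) : ℂ) * LL N m (i + 1) x := by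
  have hN : 0 < N := by omega
  have h1 : LL N m i (C23 N *ᵥ x) = ∑ b ∈ range (m + 1),
      (((nut N m i b * th N ((m : ℤ) - b) : ℝ) : ℂ) * tt N m x b +
        ((nut N m i (b - 1) * gg N m b : ℝ) : ℂ) * tt N m x b) := by
    unfold LL
    rw [sum_add_distrib]
    have h2 : ∑ b ∈ range (m + 1), ((nut N m i (b - 1) * gg N m b : ℝ) : ℂ) * tt N m x b =
        ∑ b ∈ range m, ((nut N m i b * gg N m ((b : ℤ) + 1) : ℝ) : ℂ) * tt N m x (b + 1) := by
      rw [sum_range_succ']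
      have z : ((nut N m i (0 - 1) * gg N m ((0 : ℕ) : ℤ) : ℝ) : ℂ) * tt N m x 0 = 0 := by
        rw [Nat.cast_zero, gg_zero]; simp
      rw [z, add_zero]
      refine sum_congr rfl fun b _ => ?_
      rw [Nat.add_sub_cancel]
      push_cast
      rfl
    rw [h2, sum_range_succ, sum_range_succ (fun b => ((nut N m i b * th N ((m : ℤ) - b) : ℝ) : ℂ) *
      tt N m x b), tt_C23_last hN, sub_self]
    have h3 : ∑ b ∈ range m, ((nut N m i b : ℝ) : ℂ) * tt N m (C23 N *ᵥ x) b =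
        ∑ b ∈ range m, ((nut N m i b * th N ((m : ℤ) - b) : ℝ) : ℂ) * tt N m x b +
        ∑ b ∈ range m, ((nut N m i b * gg N m ((b : ℤ) + 1) : ℝ) : ℂ) * tt N m x (b + 1) := by
      rw [← sum_add_distrib]
      refine sum_congr rfl fun b hb => ?_
      rw [mem_range] at hb
      rw [tt_C23 hN hx (by omega)]
      push_cast
      ring
    rw [h3]
    push_cast
    ring
  rw [h1]
  unfold LL
  rw [mul_sum, mul_sum, ← sum_add_distrib]
  refine sum_congr rfl fun b hb => ?_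
  rw [mem_range] at hb
  have h2 := I2 (N := N) hm hi (by omega : b ≤ m)
  have h3 : ((nut N m i b * th N ((m : ℤ) - b) : ℝ) : ℂ) + ((nut N m i (b - 1) * gg N m b : ℝ) : ℂ) =
      ((th N i : ℝ) : ℂ) * ((nut N m i b : ℝ) : ℂ) +
        ((gg N m ((i : ℤ) + 1) : ℝ) : ℂ) * ((nut N m (i + 1) b : ℝ) : ℂ) := by exact_mod_cast h2
  linear_combination tt N m x b * h3

lemma LL_zero (m : ℕ) (x : I3 N → ℂ) : LL N m 0 x = tt N m x 0 := by
  unfold LL
  rw [sum_eq_single 0]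
  · simp [nut, nu_zero]
  · intro a _ ha
    rw [nut, if_neg (by omega)]; simp
  · intro h; simp at h

/-- the sum over the coordinates -/
lemma sum_LL {m : ℕ} (hm : m < N) (x : I3 N → ℂ) :
    ∑ i ∈ range (m + 1), rt N ^ (i : ℤ) * ((qb N m (m - i) : ℝ) : ℂ) * LL N m i x =
      ∑ a ∈ range (m + 1), rt N ^ (a : ℤ) * (-rt N ^ ((m : ℤ) + 1)) ^ (m - a) * tt N m x a := by
  have h0 := rt_ne N
  unfold LL
  simp only [mul_sum]
  rw [sum_comm]
  refine sum_congr rfl fun a ha => ?_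
  rw [mem_range] at ha
  have h1 := bn_eq (N := N) m (n := m - a) (by omega)
  rw [← h1]
  unfold bn
  rw [mul_sum, sum_mul]
  have h2 : range (m + 1) = (range (m + 1)).filter (fun i => a ≤ i) ∪
      (range (m + 1)).filter (fun i => ¬ a ≤ i) := (filter_union_filter_not_eq _ _).symm
  have h3 : ∑ i ∈ range (m + 1), rt N ^ (i : ℤ) * ((qb N m (m - i) : ℝ) : ℂ) *
      (((nut N m i a : ℝ) : ℂ) * tt N m x a) =
      ∑ k ∈ range (m + 1 - a), rt N ^ ((a + k : ℕ) : ℤ) * ((qb N m (m - (a + k)) : ℝ) : ℂ) *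
      (((nut N m (a + k) a : ℝ) : ℂ) * tt N m x a) := by
    have e1 : m + 1 = a + (m + 1 - a) := by omega
    conv_lhs => rw [e1]
    rw [sum_range_add]
    rw [sum_eq_zero, zero_add]
    intro i hi
    rw [mem_range] at hi
    rw [nut, if_neg (by omega)]; simp
  rw [h3]
  have e2 : m + 1 - a = m - a + 1 := by omega
  rw [e2]
  refine sum_congr rfl fun k hk => ?_
  rw [mem_range] at hk
  have e3 : m - (a + k) = m - a - k := by omega
  have e4 : rt N ^ ((a + k : ℕ) : ℤ) = rt N ^ (a : ℤ) * rt N ^ (k : ℤ) := by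
    rw [← zpow_add₀ h0]; congr 1
  rw [e3, e4, nut, if_pos (by omega), Nat.add_sub_cancel_left]
  ring

/-- the first coordinate of `s_2 x` -/
lemma LL_P23_zero {m : ℕ} (hm : m < N) {x : I3 N → ℂ} (hx : InK m x) :
    LL N m 0 (on23 (PP N) *ᵥ x) =
      -rt N * ∑ j ∈ range (m + 1), rt N ^ (j : ℤ) * ((qb N m (m - j) : ℝ) : ℂ) * LL N m j x := by
  have h0 := rt_ne N
  have hN : 0 < N := by omega
  rw [LL_zero, sum_LL hm, tt, Nat.sub_zero, P23_row (by omega) hN, M1 hm hx]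
  have e1 : rt N ^ (-(((0 : ℕ) : ℤ) * (2 * (m : ℤ) - N - ((0 : ℕ) : ℤ)))) = 1 := by simp
  rw [e1, one_mul, mul_sum, mul_sum]
  refine sum_congr rfl fun a ha => ?_
  rw [mem_range] at ha
  obtain ⟨c, hc⟩ : ∃ c, m = a + c := ⟨m - a, by omega⟩
  have h1 := hat_of_tt m x a
  rw [h1]
  have e2 : m - a = c := by omega
  rw [e2]
  have hvN : rt N ^ (N : ℤ) = -1 := rt_zpow_N hN
  have p1 : ∀ k : ℕ, rt N ^ ((N : ℤ) * k) = (-1) ^ k := fun k => by
    rw [_root_.zpow_mul, hvN, zpow_natCast]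
  have q1 : rt N ^ (-((N : ℤ) - 1) * (1 + (m : ℤ))) =
      rt N ^ (-((N : ℤ) * ((1 + m : ℕ) : ℤ))) * rt N ^ (1 + (m : ℤ)) := by
    rw [← zpow_add₀ h0]; congr 1; push_cast; ring
  have q2 : rt N ^ ((a : ℤ) * (2 * (m : ℤ) - N - a)) =
      rt N ^ (-((N : ℤ) * a)) * rt N ^ (2 * (a : ℤ) * m - a * a) := by
    rw [← zpow_add₀ h0]; congr 1; ring
  have q3 : ∀ k : ℕ, rt N ^ (-((N : ℤ) * k)) = (-1) ^ k := fun k => by
    rw [_root_.zpow_neg, p1, ← inv_pow]; norm_num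
  have q6 : (-rt N ^ ((m : ℤ) + 1)) ^ c = (-1) ^ c * rt N ^ (((m : ℤ) + 1) * c) := by
    rw [neg_pow, _root_.zpow_mul, zpow_natCast]
  rw [q1, q2, q3, q3, q6]
  have q4 : rt N ^ (1 + (m : ℤ)) * rt N ^ (((m : ℤ) - a) ^ 2 - a * (m : ℤ)) *
      rt N ^ (2 * (a : ℤ) * m - a * a) =
      rt N * (rt N ^ (a : ℤ) * rt N ^ (((m : ℤ) + 1) * c)) := by
    have : rt N * (rt N ^ (a : ℤ) * rt N ^ (((m : ℤ) + 1) * c)) =
        rt N ^ (1 : ℤ) * (rt N ^ (a : ℤ) * rt N ^ (((m : ℤ) + 1) * c)) := by rw [zpow_one]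
    rw [this, ← zpow_add₀ h0, ← zpow_add₀ h0, ← zpow_add₀ h0, ← zpow_add₀ h0]
    congr 1
    rw [hc]; push_cast; ring
  have q5 : ((-1 : ℂ)) ^ (1 + m) * (-1) ^ a = -(-1) ^ c := by
    rw [hc, ← pow_add]
    have : 1 + (a + c) + a = 2 * a + (c + 1) := by ring
    rw [this, pow_add, pow_mul, pow_succ]
    norm_num [pow_succ]
  linear_combination (tt N m x a * rt N ^ (1 + (m : ℤ)) * rt N ^ (((m : ℤ) - a) ^ 2 - a * (m : ℤ)) *
      rt N ^ (2 * (a : ℤ) * m - a * a)) * q5 - tt N m x a * (-1) ^ c * q4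

/-- the matrix of `s_2` on `K_m` -/
theorem LL_P23 {m : ℕ} (hm : m < N) {i : ℕ} (hi : i ≤ m) : ∀ {x : I3 N → ℂ}, InK m x →
    LL N m i (on23 (PP N) *ᵥ x) = -rt N * (-1) ^ i * ∑ j ∈ range (m + 1),
      rt N ^ (((i : ℤ) + 1) * j) * ((qb N ((m : ℤ) - i) (m - j) : ℝ) : ℂ) * LL N m j x := by
  have h0 := rt_ne N
  have hN : 0 < N := by omega
  induction i with
  | zero =>
    intro x hx
    rw [LL_P23_zero hm hx]
    simp
  | succ i ih =>
    intro x hx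
    have hi' : i < m := by omega
    have ih' := fun {x : I3 N → ℂ} (hx : InK m x) => ih (by omega) hx
    have h1 := LL_C23 hm (P23_InK hx) hi'.le
    have hcomm : C23 N *ᵥ (on23 (PP N) *ᵥ x) = on23 (PP N) *ᵥ (C23 N *ᵥ x) := by
      rw [Matrix.mulVec_mulVec, Matrix.mulVec_mulVec, C23, on23_mul, on23_mul, PP_CC]
    rw [hcomm, ih' (C23_InK hx), ih' hx] at h1
    have hg : ((gg N m ((i : ℤ) + 1) : ℝ) : ℂ) ≠ 0 := by exact_mod_cast (gg_pos hm hi').ne'
    have h2 : ((gg N m ((i : ℤ) + 1) : ℝ) : ℂ) * LL N m (i + 1) (on23 (PP N) *ᵥ x) =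
        -rt N * (-1) ^ i * ∑ j ∈ range (m + 1), rt N ^ (((i : ℤ) + 1) * j) *
          ((qb N ((m : ℤ) - i) (m - j) : ℝ) : ℂ) *
          (LL N m j (C23 N *ᵥ x) - ((th N i : ℝ) : ℂ) * LL N m j x) := by
      simp only [mul_sub, sum_sub_distrib]
      have e : ∑ j ∈ range (m + 1), rt N ^ (((i : ℤ) + 1) * j) *
          ((qb N ((m : ℤ) - i) (m - j) : ℝ) : ℂ) * (((th N i : ℝ) : ℂ) * LL N m j x) =
          ((th N i : ℝ) : ℂ) * ∑ j ∈ range (m + 1), rt N ^ (((i : ℤ) + 1) * j) *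
          ((qb N ((m : ℤ) - i) (m - j) : ℝ) : ℂ) * LL N m j x := by
        rw [mul_sum]
        exact sum_congr rfl fun j _ => by ring
      rw [e]
      linear_combination -h1
    have h3 : ∑ j ∈ range (m + 1), rt N ^ (((i : ℤ) + 1) * j) *
          ((qb N ((m : ℤ) - i) (m - j) : ℝ) : ℂ) *
          (LL N m j (C23 N *ᵥ x) - ((th N i : ℝ) : ℂ) * LL N m j x) =
        ∑ j ∈ range (m + 1), (rt N ^ (((i : ℤ) + 1) * j) * ((qb N ((m : ℤ) - i) (m - j) : ℝ) : ℂ) *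
          (((th N j - th N i : ℝ)) : ℂ) + rt N ^ (((i : ℤ) + 1) * (j - 1)) *
          ((qb N ((m : ℤ) - i) (m - j + 1) * gg N m j : ℝ) : ℂ)) * LL N m j x := by
      have e1 : ∀ j ∈ range (m + 1), rt N ^ (((i : ℤ) + 1) * j) *
          ((qb N ((m : ℤ) - i) (m - j) : ℝ) : ℂ) *
          (LL N m j (C23 N *ᵥ x) - ((th N i : ℝ) : ℂ) * LL N m j x) =
          rt N ^ (((i : ℤ) + 1) * j) * ((qb N ((m : ℤ) - i) (m - j) : ℝ) : ℂ) *
          (((th N j - th N i : ℝ)) : ℂ) * LL N m j x +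
          rt N ^ (((i : ℤ) + 1) * j) * ((qb N ((m : ℤ) - i) (m - j) : ℝ) : ℂ) *
            ((gg N m ((j : ℤ) + 1) : ℝ) : ℂ) * LL N m (j + 1) x := by
        intro j hj
        rw [mem_range] at hj
        rw [LL_C23 hm hx (by omega)]
        push_cast
        ring
      rw [sum_congr rfl e1, sum_add_distrib]
      have e5 : ∀ f g h : ℕ → ℂ, ∑ j ∈ range (m + 1), (f j + g j) * h j =
          ∑ j ∈ range (m + 1), f j * h j + ∑ j ∈ range (m + 1), g j * h j := by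
        intro f g h
        rw [← sum_add_distrib]
        exact sum_congr rfl fun j _ => by ring
      rw [e5 (fun j => rt N ^ (((i : ℤ) + 1) * j) * ((qb N ((m : ℤ) - i) (m - j) : ℝ) : ℂ) *
          (((th N j - th N i : ℝ)) : ℂ)) (fun j => rt N ^ (((i : ℤ) + 1) * (j - 1)) *
          ((qb N ((m : ℤ) - i) (m - j + 1) * gg N m j : ℝ) : ℂ)) (fun j => LL N m j x)]
      congr 1
      rw [sum_range_succ, gg_last, sum_range_succ']
      have z : rt N ^ (((i : ℤ) + 1) * (((0 : ℕ) : ℤ) - 1)) *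
          ((qb N ((m : ℤ) - i) (m - 0 + 1) * gg N m ((0 : ℕ) : ℤ) : ℝ) : ℂ) * LL N m 0 x = 0 := by
        rw [Nat.cast_zero, gg_zero]; simp
      rw [z, add_zero, Complex.ofReal_zero, mul_zero, zero_mul, add_zero]
      refine sum_congr rfl fun j hj => ?_
      rw [mem_range] at hj
      have e2 : m - (j + 1) + 1 = m - j := by omega
      have e3 : (((j + 1 : ℕ) : ℤ)) - 1 = j := by push_cast; ring
      rw [e2, e3]
      push_cast
      ring
    rw [h3] at h2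
    apply mul_left_cancel₀ hg
    rw [h2, mul_sum, mul_sum, mul_sum]
    refine sum_congr rfl fun j hj => ?_
    rw [mem_range] at hj
    have hQ2 := qb_shift (N := N) ((m : ℤ) - i) (m - j)
    have f1 : (((m - j : ℕ)) : ℤ) = m - j := by omega
    have f2 : (m : ℤ) - i - (m - j) = j - i := by ring
    rw [f1, f2] at hQ2
    have f3 : (m : ℤ) - ((i + 1 : ℕ) : ℤ) = (m : ℤ) - i - 1 := by push_cast; ring
    rw [f3]
    set Q := qb N ((m : ℤ) - i) (m - j) with hQ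
    set Q1 := qb N ((m : ℤ) - i) (m - j + 1) with hQ1'
    set Q2 := qb N ((m : ℤ) - i - 1) (m - j) with hQ2'
    have hth := th_sub N (j : ℤ) i
    have f4 : (m : ℤ) - j + 1 = (m : ℤ) + 1 - j := by ring
    have g1 : gg N m j * Q1 = 4 * sn N j * (sn N ((j : ℤ) - i) * Q) := by
      rcases Nat.eq_zero_or_pos j with hj0 | hj0
      · have z : ((j : ℕ) : ℤ) = 0 := by omega
        rw [z, gg_zero, sn_zero]; ring
      · have hQ1 := qb_succ (N := N) ((m : ℤ) - i) (k := m - j) (by omega)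
        rw [f1, f2, f4] at hQ1
        unfold gg; linear_combination 4 * sn N j * hQ1
    have g2 : gg N m ((i : ℤ) + 1) * Q2 = 4 * sn N ((i : ℤ) + 1) * (sn N ((j : ℤ) - i) * Q) := by
      unfold gg
      have : (m : ℤ) + 1 - (i + 1) = m - i := by ring
      rw [this]; linear_combination 4 * sn N ((i : ℤ) + 1) * hQ2
    have g1' : ((gg N m j : ℝ) : ℂ) * ((Q1 : ℝ) : ℂ) =
        4 * ((sn N j : ℝ) : ℂ) * (((sn N ((j : ℤ) - i) : ℝ) : ℂ) * ((Q : ℝ) : ℂ)) := by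
      exact_mod_cast g1
    have g2' : ((gg N m ((i : ℤ) + 1) : ℝ) : ℂ) * ((Q2 : ℝ) : ℂ) =
        4 * ((sn N ((i : ℤ) + 1) : ℝ) : ℂ) * (((sn N ((j : ℤ) - i) : ℝ) : ℂ) * ((Q : ℝ) : ℂ)) := by
      exact_mod_cast g2
    have hth' : ((th N j - th N i : ℝ) : ℂ) =
        -4 * (((sn N ((j : ℤ) - i) : ℝ) : ℂ) * ((sn N ((j : ℤ) + i + 1) : ℝ) : ℂ)) := by
      exact_mod_cast hth
    have key : rt N ^ (((i : ℤ) + 1) * j) * ((sn N ((j : ℤ) + i + 1) : ℝ) : ℂ) -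
        rt N ^ (((i : ℤ) + 1) * (j - 1)) * ((sn N j : ℝ) : ℂ) =
        rt N ^ (((i : ℤ) + 1 + 1) * j) * ((sn N ((i : ℤ) + 1) : ℝ) : ℂ) := by
      have s1 : ∀ k : ℤ, ((sn N k : ℝ) : ℂ) = br (rt N) k / (2 * Complex.I) := by
        intro k
        rw [br_rt]
        have := Complex.I_ne_zero
        field_simp
      rw [s1, s1, s1]
      have s2 : rt N ^ (((i : ℤ) + 1) * j) * br (rt N) ((j : ℤ) + i + 1) -
        rt N ^ (((i : ℤ) + 1) * (j - 1)) * br (rt N) j =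
        rt N ^ (((i : ℤ) + 1 + 1) * j) * br (rt N) ((i : ℤ) + 1) := by
        have u1 : rt N ^ (((i : ℤ) + 1) * j) * rt N ^ ((j : ℤ) + i + 1) =
            rt N ^ (((i : ℤ) + 1 + 1) * j) * rt N ^ ((i : ℤ) + 1) := by
          rw [← zpow_add₀ h0, ← zpow_add₀ h0]; congr 1; ring
        have u2 : rt N ^ (((i : ℤ) + 1) * j) * rt N ^ (-((j : ℤ) + i + 1)) =
            rt N ^ (((i : ℤ) + 1) * (j - 1)) * rt N ^ (-(j : ℤ)) := by
          rw [← zpow_add₀ h0, ← zpow_add₀ h0]; congr 1; ring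
        have u3 : rt N ^ (((i : ℤ) + 1) * (j - 1)) * rt N ^ (j : ℤ) =
            rt N ^ (((i : ℤ) + 1 + 1) * j) * rt N ^ (-((i : ℤ) + 1)) := by
          rw [← zpow_add₀ h0, ← zpow_add₀ h0]; congr 1; ring
        unfold br
        linear_combination u1 - u2 - u3
      linear_combination (1 / (2 * Complex.I)) * s2
    have c1 : (((i + 1 : ℕ) : ℤ)) + 1 = (i : ℤ) + 1 + 1 := by push_cast; ring
    rw [c1, hth', pow_succ]
    push_cast
    linear_combination (-rt N * (-1) ^ i * rt N ^ (((i : ℤ) + 1) * (j - 1)) * LL N m j x) * g1' +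
      (-rt N * (-1) ^ i * rt N ^ (((i : ℤ) + 1 + 1) * j) * LL N m j x) * g2' +
      (4 * rt N * (-1) ^ i * (((sn N ((j : ℤ) - i) : ℝ) : ℂ) * ((Q : ℝ) : ℂ)) * LL N m j x) * key

end Pool.Agent.V11115.VC
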