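import Pool.Agent.V11115.VC.B

/-!
The matrix of `s_1⁻¹` modulo the radical of the form.
-/

set_option autoImplicit false

namespace Pool.Agent.V11115.VC

open Matrix Finset Pool.Agent.H550R3.Jones Pool.Agent.W715.VC

variable {N : ℕ}

noncomputable def FF1 (N n : ℕ) : ℝ := ∏ l ∈ range n, sn N ((l : ℤ) + 1)

lemma FF1_pos {n : ℕ} (hn : n < N) : 0 < FF1 N n :=
  prod_pos fun l hl => by rw [mem_range] at hl; exact sn_pos (by omega) (by omega)

lemma qb_FF {M k : ℕ} (hM : M < N) (hk : k ≤ M) :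
    qb N M k = FF1 N M / (FF1 N k * FF1 N (M - k)) := by
  induction k with
  | zero =>
    have h1 := (FF1_pos (N := N) (n := M) hM).ne'
    have h2 : FF1 N 0 = 1 := by simp [FF1]
    rw [qb_zero, h2, one_mul, Nat.sub_zero, div_self h1]
  | succ k ih =>
    have h1 := qb_succ (N := N) (M : ℤ) (k := k) (by omega)
    rw [ih (by omega)] at h1
    have e1 : FF1 N (k + 1) = FF1 N k * sn N ((k : ℤ) + 1) := by unfold FF1; rw [prod_range_succ]
    have e2 : FF1 N (M - k) = FF1 N (M - (k + 1)) * sn N ((M : ℤ) - k) := by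
      have : M - k = (M - (k + 1)) + 1 := by omega
      rw [this]
      unfold FF1
      rw [prod_range_succ]
      congr 2
      omega
    have p1 : sn N ((k : ℤ) + 1) ≠ 0 := (sn_pos (by omega) (by omega)).ne'
    have p2 : sn N ((M : ℤ) - k) ≠ 0 := (sn_pos (by omega) (by omega)).ne'
    have p3 := (FF1_pos (N := N) (n := k) (by omega)).ne'
    have p4 := (FF1_pos (N := N) (n := M - (k + 1)) (by omega)).ne'
    rw [e2] at h1
    rw [e1]
    field_simp at h1 ⊢
    linear_combination h1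

lemma qb_pos {M k : ℕ} (hM : M < N) (hk : k ≤ M) : 0 < qb N M k := by
  rw [qb_FF hM hk]
  exact div_pos (FF1_pos hM) (mul_pos (FF1_pos (by omega)) (FF1_pos (by omega)))

lemma qb_self {M : ℕ} (hM : M < N) : qb N M M = 1 := by
  rw [qb_FF hM le_rfl, Nat.sub_self]
  have h2 : FF1 N 0 = 1 := by simp [FF1]
  rw [h2, mul_one, div_self (FF1_pos hM).ne']

lemma qb_symm {M k : ℕ} (hM : M < N) (hk : k ≤ M) : qb N M (M - k) = qb N M k := by
  rw [qb_FF hM hk, qb_FF hM (by omega : M - k ≤ M)]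
  have : M - (M - k) = k := by omega
  rw [this, mul_comm (FF1 N (M - k))]

lemma qb_gt {M k : ℕ} (hk : M < k) : qb N M k = 0 := by
  unfold qb
  refine prod_eq_zero (mem_range.2 hk) ?_
  rw [sub_self, sn_zero, zero_div]

lemma qb_nonneg {M k : ℕ} (hM : M < N) : 0 ≤ qb N M k := by
  rcases le_or_gt k M with h | h
  · exact (qb_pos hM h).le
  · rw [qb_gt h]

/-- the weights in the coordinate `d = m - i` -/
lemma DD_eq {m K d : ℕ} (hm : m < N) (hK : N + K = 2 * m + 1) (hd : d ≤ K) :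
    DD N m (m - d) = qb N K (K - d) := by
  unfold DD qb
  rw [if_neg (by omega)]
  have e1 : m - d - (N - 1 - m) = K - d := by omega
  rw [e1]
  refine prod_congr rfl fun l _ => ?_
  have e2 : (m : ℤ) - (N - 1 - m : ℕ) - l = (K : ℤ) - l := by omega
  rw [e2]

lemma DD_zero {m K i : ℕ} (hK : N + K = 2 * m + 1) (hi : i < m - K) : DD N m i = 0 := by
  unfold DD
  rw [if_pos (by omega)]

/-- vectors with given coordinates -/
lemma exists_coord {m : ℕ} (hm : m < N) (e : ℕ → ℂ) :
    ∃ z : I3 N → ℂ, InK m z ∧ ∀ i, i ≤ m → LL N m i z = e i := by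
  have hN : 0 < N := by omega
  have h1 : ∀ n, n ≤ m + 1 → ∃ t : ℕ → ℂ, ∀ i, i < n →
      ∑ a ∈ range (m + 1), ((nut N m i a : ℝ) : ℂ) * t a = e i := by
    intro n
    induction n with
    | zero => intro _; exact ⟨fun _ => 0, fun i hi => absurd hi (Nat.not_lt_zero i)⟩
    | succ n ih =>
      intro hn
      obtain ⟨t, ht⟩ := ih (by omega)
      set r : ℂ := e n - ∑ a ∈ range (m + 1), ((nut N m n a : ℝ) : ℂ) * t a with hr
      refine ⟨fun a => t a + if a = n then r else 0, fun i hi => ?_⟩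
      have h2 : ∑ a ∈ range (m + 1), ((nut N m i a : ℝ) : ℂ) * (t a + if a = n then r else 0) =
          ∑ a ∈ range (m + 1), ((nut N m i a : ℝ) : ℂ) * t a + ((nut N m i n : ℝ) : ℂ) * r := by
        simp only [mul_add, sum_add_distrib]
        congr 1
        rw [sum_eq_single n]
        · rw [if_pos rfl]
        · intro a _ ha; rw [if_neg ha, mul_zero]
        · intro h; exact absurd (mem_range.2 (by omega)) h
      rw [h2]
      rcases Nat.lt_or_ge i n with h3 | h3
      · rw [ht i h3, nut, if_neg (by omega)]; simp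
      · have : i = n := by omega
        subst this
        rw [nut, if_pos le_rfl, Nat.sub_self, nu_zero, hr]
        push_cast
        simp [nut, nu_zero]
  obtain ⟨t, ht⟩ := h1 (m + 1) le_rfl
  refine ⟨∑ a ∈ range (m + 1), t a • yv N m a, InK_sum fun a _ => InK_smul (yv_InK hm a) _,
    fun i hi => ?_⟩
  rw [← ht i (by omega)]
  unfold LL
  refine sum_congr rfl fun b hb => ?_
  rw [mem_range] at hb
  rw [tt_sum, sum_eq_single b]
  · rw [tt_smul, tt_yv hm (by omega), if_pos rfl, mul_one]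
  · intro a ha hab
    rw [mem_range] at ha
    rw [tt_smul, tt_yv hm (by omega), if_neg (Ne.symm hab), mul_zero]
  · intro h; exact absurd (mem_range.2 hb) h

/-- the form is not zero on `K_m` -/
lemma form_ne {m : ℕ} (hm : m < N) : Hf (yv N m m) (yv N m m) ≠ 0 := by
  have hN : 0 < N := by omega
  have hK := yv_InK hm m
  set y := yv N m m with hy
  have hflag : ∀ a b c, 0 < c → hat y a b c = 0 := by
    intro a b c hc
    by_contra h
    have h1 := hK.1 a b c h
    apply h
    refine flag1 (k := m) hN hK (fun a ha => ?_) b a c (by omega)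
    rw [hat_of_tt, hy, tt_yv hm le_rfl, if_neg (by omega), mul_zero]
  have h00 : hat y 0 m 0 ≠ 0 := by
    rw [M1 hm hK, sum_eq_single m]
    · rw [hat_of_tt, hy, tt_yv hm le_rfl, if_pos rfl, mul_one]
      exact mul_ne_zero (zpow_ne_zero _ (rt_ne N)) (zpow_ne_zero _ (rt_ne N))
    · intro a ha ham
      rw [mem_range] at ha
      rw [hat_of_tt, hy, tt_yv hm le_rfl, if_neg (by omega), mul_zero, mul_zero]
    · intro h; exact absurd (mem_range.2 (by omega)) h
  set p0 : I3 N := (⟨0, hN⟩, (⟨m, hm⟩, ⟨0, hN⟩)) with hp0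
  have hyp : y p0 = hat y 0 m 0 := by
    have := hat_of y p0
    rw [← this]
  unfold Hf
  rw [sum_eq_single p0]
  · have : rv p0 = p0 := rfl
    rw [this, hyp]
    exact mul_ne_zero ((map_ne_zero _).2 h00) h00
  · intro p _ hp
    by_contra hne
    have h1 : y p ≠ 0 := fun h => hne (by rw [h, map_zero, zero_mul])
    have h2 : y (rv p) ≠ 0 := right_ne_zero_of_mul hne
    rw [← hat_of y p] at h1
    rw [← hat_of y (rv p)] at h2
    have h3 : (p.2.2 : ℕ) = 0 := by
      by_contra h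
      exact h1 (hflag _ _ _ (Nat.pos_of_ne_zero h))
    have h4 : (p.1 : ℕ) = 0 := by
      by_contra h
      exact h2 (hflag _ _ _ (Nat.pos_of_ne_zero h))
    have h5 := hK.1 _ _ _ h1
    apply hp
    obtain ⟨a, b, c⟩ := p
    simp only at h3 h4 h5
    rw [hp0]
    ext <;> simp <;> omega
  · intro h; exact absurd (mem_univ _) h

noncomputable def SS1 (N m : ℕ) (x : I3 N → ℂ) : ℝ :=
  ∑ i ∈ range (m + 1), DD N m i * ‖LL N m i x‖ ^ 2

/-- the Hermitian form in the coordinates -/
noncomputable def S2 (N m : ℕ) (x y : I3 N → ℂ) : ℂ :=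
  ∑ i ∈ range (m + 1), ((DD N m i : ℝ) : ℂ) * ((starRingEnd ℂ) (LL N m i x) * LL N m i y)

lemma S2_self (m : ℕ) (x : I3 N → ℂ) : S2 N m x x = ((SS1 N m x : ℝ) : ℂ) := by
  unfold S2 SS1
  push_cast
  refine sum_congr rfl fun i _ => ?_
  rw [Complex.conj_mul']

/-- the form `H` is a non-zero multiple of the form `S2` -/
lemma semi' {m : ℕ} (hm : m < N) (h2 : N ≤ 2 * m + 1) :
    ∃ c : ℝ, c ≠ 0 ∧ ∀ x y : I3 N → ℂ, InK m x → InK m y → Hf x y = c * S2 N m x y := by
  obtain ⟨c, hc⟩ := semi hm h2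
  refine ⟨c, fun h => ?_, hc⟩
  have h1 := hc _ _ (yv_InK hm m) (yv_InK hm m)
  rw [h, Complex.ofReal_zero, zero_mul] at h1
  exact form_ne hm h1

/-- adjoint operators -/
lemma S2_adj {m : ℕ} (hm : m < N) (h2 : N ≤ 2 * m + 1) {A A' : M3 N} (hAA : hadj A = A')
    (hA : Good A) (hA' : Good A') {x y : I3 N → ℂ} (hx : InK m x) (hy : InK m y) :
    S2 N m (A *ᵥ x) y = S2 N m x (A' *ᵥ y) := by
  obtain ⟨c, hc0, hc⟩ := semi' hm h2
  have h1 := Hf_adj A x y
  rw [hc _ _ (hA.InK hx) hy, hAA, hc _ _ hx (hA'.InK hy)] at h1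
  have hc0' : (c : ℂ) ≠ 0 := by exact_mod_cast hc0
  exact mul_left_cancel₀ hc0' h1

lemma g3_P23 : g3 N (1, true) = on23 (PP N) := by simp [g3]
lemma g3_Q12 : g3 N (0, false) = on12 (QQ N) := by simp [g3]

/-- the matrix of `s_1⁻¹` modulo the radical -/
theorem LL_Q12 {m K : ℕ} (hm : m < N) (hK : N + K = 2 * m + 1) {d : ℕ} (hd : d ≤ K)
    {x : I3 N → ℂ} (hx : InK m x) :
    LL N m (m - d) (on12 (QQ N) *ᵥ x) = ∑ e ∈ range (K + 1),
      -(rt N)⁻¹ * (-1) ^ (m - e) * rt N ^ (-(((m - e : ℕ) : ℤ) + 1) * (m - d : ℕ)) *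
        ((qb N e d * DD N m (m - e) / DD N m (m - d) : ℝ) : ℂ) * LL N m (m - e) x := by
  have hKm : K ≤ m := by omega
  have hDd : DD N m (m - d) ≠ 0 := by rw [DD_eq hm hK hd]; exact (qb_pos (by omega) (by omega)).ne'
  have hDd' : ((DD N m (m - d) : ℝ) : ℂ) ≠ 0 := by exact_mod_cast hDd
  obtain ⟨z, hz, hzc⟩ := exists_coord hm (fun i => if i = m - d then 1 else 0)
  have hadjP : hadj (g3 N (1, true)) = g3 N (0, false) := hadj_g3 (by omega) (by norm_num)
  have h1 := S2_adj hm (by omega) hadjP (good_g3 _) (good_g3 _) hz hx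
  rw [g3_P23, g3_Q12] at h1
  have h2 : S2 N m z (on12 (QQ N) *ᵥ x) =
      ((DD N m (m - d) : ℝ) : ℂ) * LL N m (m - d) (on12 (QQ N) *ᵥ x) := by
    unfold S2
    rw [sum_eq_single (m - d)]
    · rw [hzc _ (by omega), if_pos rfl, map_one, one_mul]
    · intro i hi hid
      rw [mem_range] at hi
      rw [hzc _ (by omega), if_neg hid, map_zero, zero_mul, mul_zero]
    · intro h; exact absurd (mem_range.2 (by omega)) h
  rw [h2] at h1
  apply mul_left_cancel₀ hDd'
  rw [← h1]
  unfold S2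
  have e0 : m + 1 = (m - K) + (K + 1) := by omega
  rw [e0, sum_range_add, sum_eq_zero, zero_add, mul_sum, ← sum_range_reflect]
  · refine sum_congr rfl fun e he => ?_
    rw [mem_range] at he
    have e1 : m - K + (K + 1 - 1 - e) = m - e := by omega
    rw [e1, LL_P23 hm (by omega) hz]
    have e2 : ∑ j ∈ range (m + 1), rt N ^ ((((m - e : ℕ) : ℤ) + 1) * j) *
        ((qb N ((m : ℤ) - (m - e : ℕ)) (m - j) : ℝ) : ℂ) * LL N m j z =
        rt N ^ ((((m - e : ℕ) : ℤ) + 1) * (m - d : ℕ)) * ((qb N e d : ℝ) : ℂ) := by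
      rw [sum_eq_single (m - d)]
      · rw [hzc _ (by omega), if_pos rfl, mul_one]
        have f1 : (m : ℤ) - (m - e : ℕ) = e := by omega
        have f2 : m - (m - d) = d := by omega
        rw [f1, f2]
      · intro j hj hjd
        rw [mem_range] at hj
        rw [hzc _ (by omega), if_neg hjd, mul_zero]
      · intro h; exact absurd (mem_range.2 (by omega)) h
    rw [e2]
    simp only [map_mul, map_neg, map_pow, map_one, Complex.conj_ofReal, conj_rt_zpow]
    have e3 : (starRingEnd ℂ) (rt N) = (rt N)⁻¹ := by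
      have := conj_rt_zpow N 1
      rwa [_root_.zpow_one, _root_.zpow_neg_one] at this
    have e4 : -((((m - e : ℕ) : ℤ) + 1) * ((m - d : ℕ) : ℤ)) =
      -(((m - e : ℕ) : ℤ) + 1) * ((m - d : ℕ) : ℤ) := by ring
    rw [e3, e4]
    push_cast
    field_simp
  · intro i hi
    rw [mem_range] at hi
    rw [DD_zero hK hi]; simp

end Pool.Agent.V11115.VC
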