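import Pool.Agent.V11115.VC.C

/-!
Positive words in `s_2` and `s_1⁻¹` act on the spaces of highest weight vectors of weight close to
`N / 2` almost as matrices with positive entries.
-/

set_option autoImplicit false

namespace Pool.Agent.V11115.VC

open Matrix Finset Pool.Agent.H550R3.Jones Pool.Agent.W715.VC

variable {N : ℕ}

lemma near_abs {K : ℕ} {f g σ σ' ι : ℕ → ℂ} {w : ℕ → ℕ → ℂ} {B : ℕ → ℕ → ℝ} {c κ : ℂ}
    {R : ℕ → ℝ} {τ ε : ℝ} (hc : ‖c‖ = 1) (hσ' : ∀ d, ‖σ' d‖ = 1) (hι : ∀ e, ‖ι e‖ = 1)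
    (hw : ∀ d e, ‖w d e‖ = 1) (hκ : ‖κ‖ = 1)
    (hB : ∀ d, d ≤ K → ∀ e, e ≤ K → 0 ≤ B d e) (hR : ∀ e, e ≤ K → 0 ≤ R e)
    (hχ : ∀ d, d ≤ K → ∀ e, e ≤ K → ‖w d e * (ι e * σ e) - 1‖ ≤ ε)
    (hf : ∀ e, e ≤ K → ‖f e - κ * σ e * R e‖ ≤ τ * R e)
    (hg : ∀ d, d ≤ K → g d = c * σ' d * ∑ e ∈ range (K + 1), w d e * ι e * (B d e : ℂ) * f e) :
    ∀ d, d ≤ K → ‖g d - (c * κ) * σ' d * ((∑ e ∈ range (K + 1), B d e * R e : ℝ) : ℂ)‖ ≤
      (τ + ε) * ∑ e ∈ range (K + 1), B d e * R e := by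
  intro d hd
  have h1 : g d - (c * κ) * σ' d * ((∑ e ∈ range (K + 1), B d e * R e : ℝ) : ℂ) =
      c * σ' d * ∑ e ∈ range (K + 1), ((B d e : ℂ) * (w d e * ι e * (f e - κ * σ e * R e) +
        κ * (R e : ℂ) * (w d e * (ι e * σ e) - 1))) := by
    rw [hg d hd]
    push_cast
    rw [mul_sum, mul_sum, mul_sum, ← sum_sub_distrib]
    refine sum_congr rfl fun e _ => ?_
    ring
  rw [h1, norm_mul, norm_mul, hc, hσ', one_mul, one_mul, mul_sum]
  refine (_root_.norm_sum_le _ _).trans (sum_le_sum fun e he => ?_)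
  rw [mem_range] at he
  have he' : e ≤ K := by omega
  rw [norm_mul, Complex.norm_real, Real.norm_of_nonneg (hB d hd e he')]
  have h2 : ‖w d e * ι e * (f e - κ * σ e * R e) +
        κ * (R e : ℂ) * (w d e * (ι e * σ e) - 1)‖ ≤ (τ + ε) * R e := by
    refine (norm_add_le _ _).trans ?_
    rw [norm_mul, norm_mul, hw, hι, norm_mul, norm_mul, hκ, Complex.norm_real,
      Real.norm_of_nonneg (hR e he'), one_mul, one_mul, one_mul]
    have h3 := hf e he'
    have h4 := mul_le_mul_of_nonneg_left (hχ d hd e he') (hR e he')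
    linarith
  calc B d e * ‖w d e * ι e * (f e - κ * σ e * R e) +
        κ * (R e : ℂ) * (w d e * (ι e * σ e) - 1)‖ ≤ B d e * ((τ + ε) * R e) :=
        mul_le_mul_of_nonneg_left h2 (hB d hd e he')
    _ = _ := by ring

lemma rt_near (N : ℕ) (n : ℤ) : ‖rt N ^ n - 1‖ ≤ Real.pi * |(n : ℝ)| / N := by
  rw [rt_zpow, mul_comm]
  have h := Real.norm_exp_I_mul_ofReal_sub_one_le (x := Real.pi * n / N)
  refine h.trans (le_of_eq ?_)
  rw [Real.norm_eq_abs, abs_div, abs_mul, abs_of_pos Real.pi_pos, Nat.abs_cast]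

noncomputable def s0 (N m : ℕ) (d : ℕ) : ℂ := (-1) ^ d * rt N ^ (-((d : ℤ) * m))
noncomputable def s1 (N m : ℕ) (d : ℕ) : ℂ := rt N ^ ((d : ℤ) * (m + 1))

lemma norm_s0 (m d : ℕ) : ‖s0 N m d‖ = 1 := by
  unfold s0; rw [norm_mul, norm_rt_zpow, norm_pow, norm_neg, norm_one, one_pow, one_mul]

lemma norm_s1 (m d : ℕ) : ‖s1 N m d‖ = 1 := norm_rt_zpow _ _

lemma neg_sq_pow (e : ℕ) : ((-1 : ℂ)) ^ e * (-1) ^ e = 1 := by
  rw [← mul_pow]; norm_num

lemma rt_eN (hN : 0 < N) (e : ℕ) : rt N ^ ((e : ℤ) * N) = (-1) ^ e := by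
  rw [mul_comm, _root_.zpow_mul, rt_zpow_N hN, zpow_natCast]

lemma rt_eN' (hN : 0 < N) (e : ℕ) : rt N ^ (-((e : ℤ) * N)) = (-1) ^ e := by
  rw [_root_.zpow_neg, rt_eN hN, ← inv_pow]; norm_num

/-- one letter `s_2` -/
lemma step_P {m K : ℕ} (hm : m < N) (hK : N + K = 2 * m + 1) {ε : ℝ}
    (hε : ∀ n : ℤ, |n| ≤ K * K → ‖rt N ^ n - 1‖ ≤ ε) {x : I3 N → ℂ} (hx : InK m x)
    {σ : ℕ → ℂ} (hσ : σ = s0 N m ∨ σ = s1 N m) {κ : ℂ} (hκ : ‖κ‖ = 1) {R : ℕ → ℝ}
    (hR : ∀ e, e ≤ K → 0 ≤ R e) {τ : ℝ}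
    (hn : ∀ d, d ≤ K → ‖LL N m (m - d) x - κ * σ d * R d‖ ≤ τ * R d) :
    ∃ κ' : ℂ, ‖κ'‖ = 1 ∧ ∀ d, d ≤ K → ‖LL N m (m - d) (on23 (PP N) *ᵥ x) -
      κ' * s0 N m d * ((∑ e ∈ range (K + 1), qb N d e * R e : ℝ) : ℂ)‖ ≤
      (τ + ε) * ∑ e ∈ range (K + 1), qb N d e * R e := by
  have h0 := rt_ne N
  have hN : 0 < N := by omega
  have hKm : K ≤ m := by omega
  set c : ℂ := -rt N * rt N ^ ((m : ℤ) * (m + 1)) * (-1) ^ m with hc
  have hrt : ‖rt N‖ = 1 := by have := norm_rt_zpow N 1; rwa [_root_.zpow_one] at this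
  have hc1 : ‖c‖ = 1 := by
    rw [hc, norm_mul, norm_mul, norm_neg, hrt, norm_rt_zpow, norm_pow, norm_neg, norm_one, one_pow]
    norm_num
  refine ⟨c * κ, by rw [norm_mul, hc1, hκ, one_mul], ?_⟩
  refine near_abs (f := fun e => LL N m (m - e) x) (σ := σ) (ι := fun e => rt N ^ (-((e : ℤ) * (m + 1))))
    (w := fun d e => rt N ^ ((d : ℤ) * e)) (B := fun d e => qb N d e) hc1 (fun d => norm_s0 m d)
    (fun e => norm_rt_zpow _ _) (fun d e => norm_rt_zpow _ _) hκ
    (fun d hd e he => qb_nonneg (by omega)) hR ?_ hn ?_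
  · intro d hd e he
    have hd' : (d : ℤ) ≤ K := by exact_mod_cast hd
    have he' : (e : ℤ) ≤ K := by exact_mod_cast he
    have hd0 : (0 : ℤ) ≤ d := Int.natCast_nonneg d
    have he0 : (0 : ℤ) ≤ e := Int.natCast_nonneg e
    rcases hσ with rfl | rfl
    · have e1 : rt N ^ ((d : ℤ) * e) * (rt N ^ (-((e : ℤ) * (m + 1))) * s0 N m e) =
          rt N ^ ((d : ℤ) * e - e * K) := by
        unfold s0
        have q : rt N ^ ((d : ℤ) * e) * rt N ^ (-((e : ℤ) * (m + 1))) * rt N ^ (-((e : ℤ) * m)) =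
            rt N ^ ((d : ℤ) * e - e * K) * rt N ^ (-((e : ℤ) * N)) := by
          rw [← zpow_add₀ h0, ← zpow_add₀ h0, ← zpow_add₀ h0]
          congr 1
          have : (N : ℤ) = 2 * m + 1 - K := by omega
          rw [this]; ring
        rw [rt_eN' hN] at q
        have := neg_sq_pow e
        linear_combination (-1) ^ e * q + rt N ^ ((d : ℤ) * e - e * K) * this
      rw [e1]
      refine hε _ ?_
      rw [abs_le]
      constructor <;> nlinarith
    · have e1 : rt N ^ ((d : ℤ) * e) * (rt N ^ (-((e : ℤ) * (m + 1))) * s1 N m e) =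
          rt N ^ ((d : ℤ) * e) := by
        unfold s1
        rw [← zpow_add₀ h0, neg_add_cancel, _root_.zpow_zero, mul_one]
      rw [e1]
      refine hε _ ?_
      rw [abs_le]
      constructor <;> nlinarith
  · intro d hd
    rw [LL_P23 hm (by omega) hx, ← sum_range_reflect]
    have e0 : m + 1 = (K + 1) + (m - K) := by omega
    have e1 : ∀ e ∈ range (m + 1), rt N ^ ((((m - d : ℕ) : ℤ) + 1) * ((m + 1 - 1 - e : ℕ) : ℤ)) *
        ((qb N ((m : ℤ) - (m - d : ℕ)) (m - (m + 1 - 1 - e)) : ℝ) : ℂ) * LL N m (m + 1 - 1 - e) x =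
        rt N ^ ((((m - d : ℕ) : ℤ) + 1) * ((m - e : ℕ) : ℤ)) * ((qb N d e : ℝ) : ℂ) *
          LL N m (m - e) x := by
      intro e he
      rw [mem_range] at he
      have f1 : (m : ℤ) - (m - d : ℕ) = d := by omega
      have f2 : m - (m + 1 - 1 - e) = e := by omega
      have f3 : m + 1 - 1 - e = m - e := by omega
      rw [f1, f2, f3]
    rw [sum_congr rfl e1, e0, sum_range_add]
    have e2 : ∑ x_1 ∈ range (m - K), rt N ^ ((((m - d : ℕ) : ℤ) + 1) * ((m - (K + 1 + x_1) : ℕ) : ℤ)) *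
        ((qb N d (K + 1 + x_1) : ℝ) : ℂ) * LL N m (m - (K + 1 + x_1)) x = 0 := by
      refine sum_eq_zero fun e _ => ?_
      rw [qb_gt (by omega)]; simp
    rw [e2, add_zero, mul_sum, mul_sum]
    refine sum_congr rfl fun e he => ?_
    rw [mem_range] at he
    have g1 : ((m - d : ℕ) : ℤ) = m - d := by omega
    have g2 : ((m - e : ℕ) : ℤ) = m - e := by omega
    have g3 : ((-1 : ℂ)) ^ (m - d) = (-1) ^ m * (-1) ^ d := by
      have : m = (m - d) + d := by omega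
      conv_rhs => rw [this]
      rw [pow_add, mul_assoc, neg_sq_pow, mul_one]
    have g4 : rt N ^ (((m : ℤ) - d + 1) * (m - e)) = rt N ^ ((m : ℤ) * (m + 1)) *
        rt N ^ (-((d : ℤ) * m)) * rt N ^ ((d : ℤ) * e) * rt N ^ (-((e : ℤ) * (m + 1))) := by
      rw [← zpow_add₀ h0, ← zpow_add₀ h0, ← zpow_add₀ h0]; congr 1; ring
    rw [g1, g2, g3, g4, hc]
    unfold s0
    ring

/-- one letter `s_1⁻¹` -/
lemma step_Q {m K : ℕ} (hm : m < N) (hK : N + K = 2 * m + 1) {ε : ℝ}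
    (hε : ∀ n : ℤ, |n| ≤ K * K → ‖rt N ^ n - 1‖ ≤ ε) {x : I3 N → ℂ} (hx : InK m x)
    {σ : ℕ → ℂ} (hσ : σ = s0 N m ∨ σ = s1 N m) {κ : ℂ} (hκ : ‖κ‖ = 1) {R : ℕ → ℝ}
    (hR : ∀ e, e ≤ K → 0 ≤ R e) {τ : ℝ}
    (hn : ∀ d, d ≤ K → ‖LL N m (m - d) x - κ * σ d * R d‖ ≤ τ * R d) :
    ∃ κ' : ℂ, ‖κ'‖ = 1 ∧ ∀ d, d ≤ K → ‖LL N m (m - d) (on12 (QQ N) *ᵥ x) -
      κ' * s1 N m d * ((∑ e ∈ range (K + 1),
        qb N e d * DD N m (m - e) / DD N m (m - d) * R e : ℝ) : ℂ)‖ ≤
      (τ + ε) * ∑ e ∈ range (K + 1), qb N e d * DD N m (m - e) / DD N m (m - d) * R e := by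
  have h0 := rt_ne N
  have hN : 0 < N := by omega
  have hKm : K ≤ m := by omega
  set c : ℂ := -(rt N)⁻¹ * rt N ^ (-((m : ℤ) * (m + 1))) * (-1) ^ m with hc
  have hrt : ‖rt N‖ = 1 := by have := norm_rt_zpow N 1; rwa [_root_.zpow_one] at this
  have hc1 : ‖c‖ = 1 := by
    rw [hc, norm_mul, norm_mul, norm_neg, norm_inv, hrt, norm_rt_zpow, norm_pow, norm_neg, norm_one,
      one_pow]
    norm_num
  refine ⟨c * κ, by rw [norm_mul, hc1, hκ, one_mul], ?_⟩
  refine near_abs (f := fun e => LL N m (m - e) x) (σ := σ)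
    (ι := fun e => (-1) ^ e * rt N ^ ((e : ℤ) * m))
    (w := fun d e => rt N ^ (-((d : ℤ) * e)))
    (B := fun d e => qb N e d * DD N m (m - e) / DD N m (m - d)) hc1 (fun d => norm_s1 m d)
    (fun e => by rw [norm_mul, norm_rt_zpow, norm_pow, norm_neg, norm_one, one_pow, one_mul])
    (fun d e => norm_rt_zpow _ _) hκ
    (fun d hd e he => ?_) hR ?_ hn ?_
  · exact div_nonneg (mul_nonneg (qb_nonneg (by omega)) (DD_nonneg hm (by omega)))
      (DD_nonneg hm (by omega))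
  · intro d hd e he
    have hd' : (d : ℤ) ≤ K := by exact_mod_cast hd
    have he' : (e : ℤ) ≤ K := by exact_mod_cast he
    have hd0 : (0 : ℤ) ≤ d := Int.natCast_nonneg d
    have he0 : (0 : ℤ) ≤ e := Int.natCast_nonneg e
    rcases hσ with rfl | rfl
    · have e1 : rt N ^ (-((d : ℤ) * e)) * ((-1) ^ e * rt N ^ ((e : ℤ) * m) * s0 N m e) =
          rt N ^ (-((d : ℤ) * e)) := by
        unfold s0
        have q : rt N ^ ((e : ℤ) * m) * rt N ^ (-((e : ℤ) * m)) = 1 := by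
          rw [← zpow_add₀ h0, add_neg_cancel, _root_.zpow_zero]
        have := neg_sq_pow e
        linear_combination rt N ^ (-((d : ℤ) * e)) * rt N ^ ((e : ℤ) * m) *
          rt N ^ (-((e : ℤ) * m)) * this + rt N ^ (-((d : ℤ) * e)) * q
      rw [e1]
      refine hε _ ?_
      rw [abs_le]
      constructor <;> nlinarith
    · have e1 : rt N ^ (-((d : ℤ) * e)) * ((-1) ^ e * rt N ^ ((e : ℤ) * m) * s1 N m e) =
          rt N ^ ((e : ℤ) * K - d * e) := by
        unfold s1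
        have q : rt N ^ (-((d : ℤ) * e)) * rt N ^ ((e : ℤ) * m) * rt N ^ ((e : ℤ) * (m + 1)) =
            rt N ^ ((e : ℤ) * K - d * e) * rt N ^ ((e : ℤ) * N) := by
          rw [← zpow_add₀ h0, ← zpow_add₀ h0, ← zpow_add₀ h0]
          congr 1
          have : (N : ℤ) = 2 * m + 1 - K := by omega
          rw [this]; ring
        rw [rt_eN hN] at q
        have := neg_sq_pow e
        linear_combination (-1) ^ e * q + rt N ^ ((e : ℤ) * K - d * e) * this
      rw [e1]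
      refine hε _ ?_
      rw [abs_le]
      constructor <;> nlinarith
  · intro d hd
    rw [LL_Q12 hm hK hd hx, mul_sum]
    refine sum_congr rfl fun e he => ?_
    rw [mem_range] at he
    have g1 : ((m - d : ℕ) : ℤ) = m - d := by omega
    have g2 : ((m - e : ℕ) : ℤ) = m - e := by omega
    have g3 : ((-1 : ℂ)) ^ (m - e) = (-1) ^ m * (-1) ^ e := by
      have : m = (m - e) + e := by omega
      conv_rhs => rw [this]
      rw [pow_add, mul_assoc, neg_sq_pow, mul_one]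
    have g4 : rt N ^ (-((m : ℤ) - e + 1) * (m - d)) = rt N ^ (-((m : ℤ) * (m + 1))) *
        rt N ^ ((d : ℤ) * (m + 1)) * rt N ^ (-((d : ℤ) * e)) * rt N ^ ((e : ℤ) * m) := by
      rw [← zpow_add₀ h0, ← zpow_add₀ h0, ← zpow_add₀ h0]; congr 1; ring
    rw [g1, g2, g3, g4, hc]
    unfold s1
    ring

/-- words in `s_2` and `s_1⁻¹` -/
lemma word_near {m K : ℕ} (hm : m < N) (hK : N + K = 2 * m + 1) {ε : ℝ}
    (hε : ∀ n : ℤ, |n| ≤ K * K → ‖rt N ^ n - 1‖ ≤ ε) {d0 : ℕ} (hd0 : d0 ≤ K) {z : I3 N → ℂ}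
    (hz : InK m z) (hzc : ∀ i, i ≤ m → LL N m i z = if i = m - d0 then 1 else 0)
    (w : List (ℕ × Bool)) (hw : ∀ l ∈ w, l = (1, true) ∨ l = (0, false)) :
    ∃ (κ : ℂ) (σ : ℕ → ℂ) (R : ℕ → ℝ), ‖κ‖ = 1 ∧ (σ = s0 N m ∨ σ = s1 N m) ∧
      (∀ e, e ≤ K → 0 ≤ R e) ∧
      (∀ d, d ≤ K → ‖LL N m (m - d) (rep3 N w *ᵥ z) - κ * σ d * R d‖ ≤ (w.length * ε) * R d) ∧
      1 ≤ R d0 ∧ (w ≠ [] → qb N K d0 ≤ R K ∨ qb N K (K - d0) ≤ R 0) := by
  have hN : 0 < N := by omega
  induction w with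
  | nil =>
    refine ⟨(s0 N m d0)⁻¹, s0 N m, fun e => if e = d0 then 1 else 0, ?_, Or.inl rfl, ?_, ?_, ?_, ?_⟩
    · rw [norm_inv, norm_s0, inv_one]
    · intro e _; dsimp only; split_ifs <;> norm_num
    · intro d hd
      rw [rep3_nil, one_mulVec, hzc _ (by omega)]
      by_cases h : d = d0
      · subst h
        have h1 : s0 N m d ≠ 0 := by
          intro h2; have := norm_s0 (N := N) m d; rw [h2, norm_zero] at this; norm_num at this
        simp [h1]
      · rw [if_neg (by omega)]; simp [h]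
    · simp
    · intro h; exact absurd rfl h
  | cons l w ih =>
    obtain ⟨κ, σ, R, hκ, hσ, hR, hn, h1, -⟩ := ih fun l' hl' => hw l' (List.mem_cons_of_mem _ hl')
    have hx : InK m (rep3 N w *ᵥ z) := (good_rep3 w).InK hz
    have hlen : (((l :: w).length : ℕ) : ℝ) * ε = w.length * ε + ε := by
      rw [List.length_cons]; push_cast; ring
    rcases hw l List.mem_cons_self with rfl | rfl
    · obtain ⟨κ', hκ', h2⟩ := step_P hm hK hε hx hσ hκ hR hn
      refine ⟨κ', s0 N m, fun d => ∑ e ∈ range (K + 1), qb N d e * R e, hκ', Or.inl rfl, ?_, ?_, ?_, ?_⟩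
      · intro d hd
        exact sum_nonneg fun e he => mul_nonneg (qb_nonneg (by omega))
          (hR e (by rw [mem_range] at he; omega))
      · intro d hd
        rw [hlen, rep3_cons, ← Matrix.mulVec_mulVec, g3_P23]
        exact h2 d hd
      · refine h1.trans ?_
        refine le_trans (le_of_eq ?_) (single_le_sum (f := fun e : ℕ => qb N (d0 : ℤ) e * R e)
          (fun e he => mul_nonneg (qb_nonneg (by omega)) (hR e (by rw [mem_range] at he; omega)))
          (mem_range.2 (by omega : d0 < K + 1)))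
        rw [qb_self (by omega), one_mul]
      · intro _
        left
        refine le_trans ?_ (single_le_sum (f := fun e : ℕ => qb N (K : ℤ) e * R e)
          (fun e he => mul_nonneg (qb_nonneg (by omega)) (hR e (by rw [mem_range] at he; omega)))
          (mem_range.2 (by omega : d0 < K + 1)))
        exact le_mul_of_one_le_right (qb_nonneg (by omega)) h1
    · obtain ⟨κ', hκ', h2⟩ := step_Q hm hK hε hx hσ hκ hR hn
      have hDn : ∀ d, d ≤ K → 0 ≤ DD N m (m - d) := fun d hd => DD_nonneg hm (by omega)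
      have hnn : ∀ d, d ≤ K → ∀ e ∈ range (K + 1),
          0 ≤ qb N e d * DD N m (m - e) / DD N m (m - d) * R e := by
        intro d hd e he
        rw [mem_range] at he
        exact mul_nonneg (div_nonneg (mul_nonneg (qb_nonneg (by omega)) (hDn e (by omega)))
          (hDn d hd)) (hR e (by omega))
      refine ⟨κ', s1 N m, fun d => ∑ e ∈ range (K + 1),
        qb N e d * DD N m (m - e) / DD N m (m - d) * R e, hκ', Or.inr rfl, ?_, ?_, ?_, ?_⟩
      · intro d hd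
        exact sum_nonneg (hnn d hd)
      · intro d hd
        rw [hlen, rep3_cons, ← Matrix.mulVec_mulVec, g3_Q12]
        exact h2 d hd
      · refine h1.trans ?_
        refine le_trans (le_of_eq ?_) (single_le_sum
          (f := fun e : ℕ => qb N (e : ℤ) d0 * DD N m (m - e) / DD N m (m - d0) * R e) (hnn d0 hd0)
          (mem_range.2 (by omega : d0 < K + 1)))
        have hD0 : DD N m (m - d0) ≠ 0 := by
          rw [DD_eq hm hK hd0]; exact (qb_pos (by omega) (by omega)).ne'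
        rw [qb_self (by omega), one_mul, div_self hD0, one_mul]
      · intro _
        right
        refine le_trans ?_ (single_le_sum
          (f := fun e : ℕ => qb N (e : ℤ) 0 * DD N m (m - e) / DD N m (m - 0) * R e) (hnn 0 (by omega))
          (mem_range.2 (by omega : d0 < K + 1)))
        have e1 : DD N m (m - 0) = 1 := by
          rw [DD_eq hm hK (by omega), Nat.sub_zero, qb_self (by omega)]
        rw [e1, qb_zero, one_mul, div_one, DD_eq hm hK hd0]
        exact le_mul_of_one_le_right (qb_nonneg (by omega)) h1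

/-- the growth of the form -/
lemma form_growth {m K : ℕ} (hm : m < N) (hK : N + K = 2 * m + 1) {ε : ℝ}
    (hε : ∀ n : ℤ, |n| ≤ K * K → ‖rt N ^ n - 1‖ ≤ ε) {h : ℕ} (hh : h ≤ K)
    (w : List (ℕ × Bool)) (hw : ∀ l ∈ w, l = (1, true) ∨ l = (0, false)) (hw0 : w ≠ [])
    (hlen : w.length * ε ≤ 1 / 2) :
    ∃ z : I3 N → ℂ, InK m z ∧ SS1 N m z = qb N K h ∧
      (qb N K h / 2) ^ 2 ≤ SS1 N m (rep3 N w *ᵥ z) := by
  obtain ⟨z, hz, hzc⟩ := exists_coord hm (fun i => if i = m - h then 1 else 0)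
  refine ⟨z, hz, ?_, ?_⟩
  · unfold SS1
    rw [sum_eq_single (m - h)]
    · rw [hzc _ (by omega), if_pos rfl, DD_eq hm hK hh, qb_symm (by omega) hh]
      simp
    · intro i hi hih
      rw [mem_range] at hi
      rw [hzc _ (by omega), if_neg hih]; simp
    · intro h1; exact absurd (mem_range.2 (by omega)) h1
  · obtain ⟨κ, σ, R, hκ, hσ, hR, hn, -, h2⟩ := word_near hm hK hε hh hz hzc w hw
    have hσ1 : ∀ d, ‖σ d‖ = 1 := by
      intro d
      rcases hσ with rfl | rfl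
      · exact norm_s0 m d
      · exact norm_s1 m d
    have hC := qb_pos (N := N) (M := K) (k := h) (by omega) hh
    have key : ∀ d, d ≤ K → DD N m (m - d) = 1 → qb N K h ≤ R d →
        (qb N K h / 2) ^ 2 ≤ SS1 N m (rep3 N w *ᵥ z) := by
      intro d hd hD hRd
      have h3 := hn d hd
      have h4 : ‖κ * σ d * (R d : ℂ)‖ = R d := by
        rw [norm_mul, norm_mul, hκ, hσ1, Complex.norm_real, Real.norm_of_nonneg (hR d hd)]; ring
      have h5 : R d / 2 ≤ ‖LL N m (m - d) (rep3 N w *ᵥ z)‖ := by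
        have h6 := norm_sub_norm_le (κ * σ d * (R d : ℂ)) (LL N m (m - d) (rep3 N w *ᵥ z))
        rw [norm_sub_rev, h4] at h6
        have h7 : (w.length * ε) * R d ≤ 1 / 2 * R d := mul_le_mul_of_nonneg_right hlen (hR d hd)
        linarith
      have h8 : (qb N K h / 2) ^ 2 ≤ ‖LL N m (m - d) (rep3 N w *ᵥ z)‖ ^ 2 :=
        pow_le_pow_left₀ (by positivity) (by linarith) 2
      refine h8.trans ?_
      have h9 := single_le_sum (f := fun i => DD N m i * ‖LL N m i (rep3 N w *ᵥ z)‖ ^ 2)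
        (s := range (m + 1)) (fun i hi => mul_nonneg (DD_nonneg hm (by rw [mem_range] at hi; omega))
          (by positivity)) (mem_range.2 (by omega : m - d < m + 1))
      simp only [hD, one_mul] at h9
      exact h9
    rcases h2 hw0 with h3 | h3
    · refine key K le_rfl ?_ h3
      rw [DD_eq hm hK le_rfl, Nat.sub_self, qb_zero]
    · refine key 0 (by omega) ?_ ?_
      · rw [DD_eq hm hK (by omega), Nat.sub_zero, qb_self (by omega)]
      · rwa [qb_symm (by omega) hh] at h3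

end Pool.Agent.V11115.VC
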