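import Pool.Agent.V11115.VC.D
import Mathlib.Analysis.Normed.Algebra.GelfandFormula
import Mathlib.Analysis.Matrix.Normed

/-!
The largest eigenvalue of a palindromic braid is at least the Rayleigh quotients of the form.
-/

set_option autoImplicit false

namespace Pool.Agent.V11115.VC

open Matrix Finset Filter Topology Pool.Agent.H550R3.Jones Pool.Agent.W715.VC

attribute [local instance] Matrix.linftyOpNormedRing Matrix.linftyOpNormedAlgebra

lemma pow_bound {ι : Type} [Fintype ι] [DecidableEq ι] (B : Matrix ι ι ℂ) {M M' : ℝ} (hM0 : 0 ≤ M)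
    (hM : ∀ a ∈ B.charpoly.roots, ‖a‖ ≤ M) (hMM : M < M') :
    ∀ᶠ n : ℕ in atTop, ‖B ^ n‖ ≤ M' ^ n := by
  have hsr : spectralRadius ℂ B ≤ ENNReal.ofReal M := by
    refine iSup₂_le fun k hk => ?_
    have h1 : k ∈ B.charpoly.roots := by
      rw [Polynomial.mem_roots (B.charpoly_monic.ne_zero)]
      exact Matrix.mem_spectrum_iff_isRoot_charpoly.1 hk
    have h2 := hM k h1
    have h3 : ((‖k‖₊ : NNReal) : ENNReal) ≤ ENNReal.ofReal M := by
      rw [← ENNReal.ofReal_coe_nnreal, coe_nnnorm]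
      exact ENNReal.ofReal_le_ofReal h2
    exact h3
  have h1 := spectrum.pow_norm_pow_one_div_tendsto_nhds_spectralRadius B
  have h2 : spectralRadius ℂ B < ENNReal.ofReal M' :=
    lt_of_le_of_lt hsr ((ENNReal.ofReal_lt_ofReal_iff (by linarith)).2 hMM)
  filter_upwards [h1.eventually (gt_mem_nhds h2), eventually_gt_atTop 0] with n hn hn0
  have h3 : ‖B ^ n‖ ^ (1 / (n : ℝ)) < M' := (ENNReal.ofReal_lt_ofReal_iff (by linarith)).1 hn
  have hn' : (n : ℝ) ≠ 0 := by exact_mod_cast hn0.ne'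
  calc ‖B ^ n‖ = (‖B ^ n‖ ^ (1 / (n : ℝ))) ^ n := by
        rw [← Real.rpow_natCast, ← Real.rpow_mul (norm_nonneg _), one_div, inv_mul_cancel₀ hn',
          Real.rpow_one]
    _ ≤ M' ^ n := pow_le_pow_left₀ (by positivity) h3.le n

variable {N : ℕ}

lemma Hf_bound (x y : I3 N → ℂ) : ‖Hf x y‖ ≤ (∑ p, ‖x p‖) * ‖y‖ := by
  unfold Hf
  refine (_root_.norm_sum_le _ _).trans ?_
  rw [sum_mul]
  refine sum_le_sum fun p _ => ?_
  rw [norm_mul, RCLike.norm_conj]
  exact mul_le_mul_of_nonneg_left (norm_le_pi_norm y _) (norm_nonneg _)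

lemma S2_cs {m : ℕ} (hm : m < N) (x y : I3 N → ℂ) :
    ‖S2 N m x y‖ ^ 2 ≤ SS1 N m x * SS1 N m y := by
  have hD : ∀ i ∈ range (m + 1), 0 ≤ DD N m i := fun i hi =>
    DD_nonneg hm (by rw [mem_range] at hi; omega)
  have h1 : ‖S2 N m x y‖ ≤ ∑ i ∈ range (m + 1), (Real.sqrt (DD N m i) * ‖LL N m i x‖) *
      (Real.sqrt (DD N m i) * ‖LL N m i y‖) := by
    unfold S2
    refine (_root_.norm_sum_le _ _).trans (sum_le_sum fun i hi => ?_)
    rw [norm_mul, norm_mul, RCLike.norm_conj, Complex.norm_real, Real.norm_of_nonneg (hD i hi)]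
    have := Real.mul_self_sqrt (hD i hi)
    have h2 : DD N m i * (‖LL N m i x‖ * ‖LL N m i y‖) = (Real.sqrt (DD N m i) * ‖LL N m i x‖) *
      (Real.sqrt (DD N m i) * ‖LL N m i y‖) := by
      linear_combination (-(‖LL N m i x‖ * ‖LL N m i y‖)) * this
    exact h2.le
  have h2 := Finset.sum_mul_sq_le_sq_mul_sq (range (m + 1))
    (fun i => Real.sqrt (DD N m i) * ‖LL N m i x‖) (fun i => Real.sqrt (DD N m i) * ‖LL N m i y‖)
  have h3 : ∀ z : I3 N → ℂ, ∑ i ∈ range (m + 1), (Real.sqrt (DD N m i) * ‖LL N m i z‖) ^ 2 =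
      SS1 N m z := by
    intro z
    unfold SS1
    refine sum_congr rfl fun i hi => ?_
    rw [mul_pow, Real.sq_sqrt (hD i hi)]
  rw [h3, h3] at h2
  exact (pow_le_pow_left₀ (norm_nonneg _) h1 2).trans h2

lemma SS1_nonneg {m : ℕ} (hm : m < N) (x : I3 N → ℂ) : 0 ≤ SS1 N m x :=
  sum_nonneg fun i hi => mul_nonneg (DD_nonneg hm (by rw [mem_range] at hi; omega)) (by positivity)

lemma hadj_hadj (A : M3 N) : hadj (hadj A) = A := by
  ext p q
  simp only [hadj, Complex.conj_conj, rv_rv]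

/-- the Rayleigh quotients of the form are at most the largest eigenvalue -/
lemma rayleigh_le (hN : 0 < N) {u : List (ℕ × Bool)} (hu : ∀ l ∈ u, l.1 < 2) {m : ℕ} (hm : m < N)
    (h2 : N ≤ 2 * m + 1) {x : I3 N → ℂ} (hx : InK m x) (hS : 0 < SS1 N m x) {M : ℝ} (hM0 : 0 ≤ M)
    (hM : ∀ a ∈ (rep3 N (u ++ dual u)).charpoly.roots, ‖a‖ ≤ M) :
    SS1 N m (rep3 N (dual u) *ᵥ x) / SS1 N m x ≤ M := by
  set B := rep3 N (u ++ dual u) with hB
  set q := SS1 N m (rep3 N (dual u) *ᵥ x) / SS1 N m x with hq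
  by_contra hcon
  rw [not_le] at hcon
  obtain ⟨c, hc0, hc⟩ := semi' hm h2
  have hc0' : 0 < |c| := abs_pos.2 hc0
  have hGB : Good B := good_rep3 _
  have hpow : ∀ n : ℕ, ∀ y : I3 N → ℂ, InK m y → InK m (B ^ n *ᵥ y) := by
    intro n
    induction n with
    | zero => intro y hy; rwa [pow_zero, one_mulVec]
    | succ n ih =>
      intro y hy
      rw [pow_succ', ← Matrix.mulVec_mulVec]
      exact hGB.InK (ih y hy)
  have had : hadj (rep3 N u) = rep3 N (dual u) := hadj_rep3 hN hu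
  have had' : hadj (rep3 N (dual u)) = rep3 N u := by rw [← had, hadj_hadj]
  have hsplit : ∀ y z : I3 N → ℂ, InK m y → InK m z → S2 N m (B *ᵥ y) z =
      S2 N m (rep3 N (dual u) *ᵥ y) (rep3 N (dual u) *ᵥ z) := by
    intro y z hy hz
    rw [hB, rep3_append, ← Matrix.mulVec_mulVec]
    exact S2_adj hm h2 had (good_rep3 _) (good_rep3 _) ((good_rep3 _).InK hy) hz
  have hself : ∀ y z : I3 N → ℂ, InK m y → InK m z → S2 N m (B *ᵥ y) z = S2 N m y (B *ᵥ z) := by
    intro y z hy hz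
    rw [hsplit y z hy hz, S2_adj hm h2 had' (good_rep3 _) (good_rep3 _) hy ((good_rep3 _).InK hz),
      hB, rep3_append, ← Matrix.mulVec_mulVec]
  have hselfn : ∀ n : ℕ, ∀ y z : I3 N → ℂ, InK m y → InK m z →
      S2 N m (B ^ n *ᵥ y) z = S2 N m y (B ^ n *ᵥ z) := by
    intro n
    induction n with
    | zero => intro y z _ _; rw [pow_zero, one_mulVec, one_mulVec]
    | succ n ih =>
      intro y z hy hz
      rw [pow_succ', ← Matrix.mulVec_mulVec, hself _ _ (hpow n y hy) hz, ih _ _ hy (hGB.InK hz),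
        Matrix.mulVec_mulVec, ← pow_succ, pow_succ']
  -- the sequence
  set s : ℕ → ℝ := fun n => ‖S2 N m x (B ^ n *ᵥ x)‖ / SS1 N m x with hs
  have hs1 : s 1 = q := by
    simp only [hs, pow_one]
    rw [← hself x x hx hx, hsplit x x hx hx, S2_self, Complex.norm_real,
      Real.norm_of_nonneg (SS1_nonneg hm _)]
  have hs2 : ∀ n, s n ^ 2 ≤ s (2 * n) := by
    intro n
    simp only [hs]
    have h3 := S2_cs hm x (B ^ n *ᵥ x)
    have h4 : SS1 N m (B ^ n *ᵥ x) = ‖S2 N m x (B ^ (2 * n) *ᵥ x)‖ := by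
      have h5 := S2_self (N := N) m (B ^ n *ᵥ x)
      rw [hselfn n x _ hx (hpow n x hx), Matrix.mulVec_mulVec, ← pow_add, ← two_mul] at h5
      rw [h5, Complex.norm_real, Real.norm_of_nonneg (SS1_nonneg hm _)]
    rw [h4] at h3
    rw [div_pow, div_le_div_iff₀ (by positivity) hS]
    nlinarith [mul_le_mul_of_nonneg_right h3 hS.le]
  have hs0 : ∀ n, 0 ≤ s n := fun n => div_nonneg (norm_nonneg _) hS.le
  have hs3 : ∀ k : ℕ, q ^ (2 ^ k) ≤ s (2 ^ k) := by
    intro k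
    induction k with
    | zero => rw [pow_zero, pow_one, hs1]
    | succ k ih =>
      have hq0 : 0 ≤ q := div_nonneg (SS1_nonneg hm _) hS.le
      have h3 := hs2 (2 ^ k)
      have e1 : 2 * 2 ^ k = 2 ^ (k + 1) := by ring
      have e2 : q ^ 2 ^ (k + 1) = (q ^ 2 ^ k) ^ 2 := by rw [← pow_mul]; congr 1
      rw [e1] at h3
      rw [e2]
      exact (pow_le_pow_left₀ (by positivity) ih 2).trans h3
  -- the upper bound
  obtain ⟨M', hM1, hM2⟩ := exists_between hcon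
  have hM'0 : 0 < M' := by linarith
  have hB1 := pow_bound B hM0 hM hM1
  set C0 : ℝ := (∑ p, ‖x p‖) * ‖x‖ / |c| / SS1 N m x with hC0
  have hC00 : 0 ≤ C0 := by positivity
  have hs4 : ∀ᶠ n : ℕ in atTop, s n ≤ C0 * M' ^ n := by
    filter_upwards [hB1] with n hn
    have h3 := hc x (B ^ n *ᵥ x) hx (hpow n x hx)
    have h4 : ‖S2 N m x (B ^ n *ᵥ x)‖ * |c| = ‖Hf x (B ^ n *ᵥ x)‖ := by
      rw [h3, norm_mul, Complex.norm_real, Real.norm_eq_abs]; ring
    have h5 := Hf_bound x (B ^ n *ᵥ x)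
    have h6 : ‖B ^ n *ᵥ x‖ ≤ M' ^ n * ‖x‖ :=
      (Matrix.linfty_opNorm_mulVec _ _).trans (mul_le_mul_of_nonneg_right hn (norm_nonneg _))
    have h7 : ‖S2 N m x (B ^ n *ᵥ x)‖ * |c| ≤ (∑ p, ‖x p‖) * (M' ^ n * ‖x‖) := by
      rw [h4]
      exact h5.trans (mul_le_mul_of_nonneg_left h6 (sum_nonneg fun _ _ => norm_nonneg _))
    simp only [hs]
    rw [div_le_iff₀ hS]
    have h8 : ‖S2 N m x (B ^ n *ᵥ x)‖ ≤ (∑ p, ‖x p‖) * (M' ^ n * ‖x‖) / |c| := by
      rw [le_div_iff₀ hc0']; exact h7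
    refine h8.trans (le_of_eq ?_)
    rw [hC0]
    field_simp
  have hlim : Tendsto (fun k : ℕ => (q / M') ^ (2 ^ k)) atTop atTop :=
    (tendsto_pow_atTop_atTop_of_one_lt ((one_lt_div hM'0).2 hM2)).comp
      (tendsto_pow_atTop_atTop_of_one_lt (by norm_num : 1 < 2))
  have h2k : Tendsto (fun k : ℕ => 2 ^ k) atTop atTop :=
    tendsto_pow_atTop_atTop_of_one_lt (by norm_num : 1 < 2)
  obtain ⟨k, hk1, hk2⟩ := ((hlim.eventually_gt_atTop C0).and (h2k.eventually hs4)).exists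
  rw [div_pow, lt_div_iff₀ (by positivity)] at hk1
  have := hs3 k
  linarith

/-- the lower bound of the trace -/
theorem rayleigh (hN : 0 < N) {u : List (ℕ × Bool)} (hu : ∀ l ∈ u, l.1 < 2) {m : ℕ} (hm : m < N)
    (h2 : N ≤ 2 * m + 1) {x : I3 N → ℂ} (hx : InK m x) (hS : 0 < SS1 N m x) :
    SS1 N m (rep3 N (dual u) *ᵥ x) / SS1 N m x - (N : ℝ) ^ 3 ≤
      (rep3 N (u ++ dual u)).trace.re + 2 := by
  set B := rep3 N (u ++ dual u) with hB
  have hroots : ∀ a ∈ B.charpoly.roots, (∃ r : ℝ, 0 < r ∧ a = r) ∨ ‖a‖ = 1 := by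
    intro a ha
    obtain ⟨m', hm'⟩ := eig_of_root (good_rep3 _) ha
    exact eig_main hN hu hm'
  obtain ⟨M, hM1, hM2, hM3⟩ := exists_radius _ hroots
  have hq := rayleigh_le hN hu hm h2 hx hS (by linarith) hM2
  have hcard : B.charpoly.roots.card = N ^ 3 := by
    rw [card_roots' B]
    simp only [I3, Fintype.card_prod, Fintype.card_fin]
    ring
  have htr : B.trace = (B.charpoly.roots.map fun a => a ^ 1).sum := by
    rw [Matrix.trace_eq_sum_roots_charpoly B]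
    simp
  rw [htr]
  rcases hM3 with h | h
  · have h3 := re_sum_ge _ hroots 1
    rw [hcard] at h3
    push_cast at h3
    linarith
  · obtain ⟨t, ht⟩ := Multiset.exists_cons_of_mem h
    have h3 := re_sum_ge t (fun a ha => hroots a (by rw [ht]; exact Multiset.mem_cons_of_mem ha)) 1
    have h4 : t.card + 1 = N ^ 3 := by rw [← hcard, ht, Multiset.card_cons]
    have h5 : (t.card : ℝ) + 1 = (N : ℝ) ^ 3 := by exact_mod_cast h4
    rw [ht, Multiset.map_cons, Multiset.sum_cons, Complex.add_re, pow_one, Complex.ofReal_re]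
    linarith

end Pool.Agent.V11115.VC
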