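import Mathlib

/-!
Every word in the generators of the braid group on three strands is `Δ^p w Δ^r` with a positive word
`w` in `s_2` and `s_1⁻¹`.
-/

set_option autoImplicit false

namespace Pool.Agent.V11115.VC

/-- the image of a letter in a group -/
def lt {G : Type} [Group G] (a b : G) (l : ℕ × Bool) : G :=
  if l.1 = 0 then (if l.2 then a else a⁻¹) else (if l.2 then b else b⁻¹)

/-- the image of a word in a group -/
def ev {G : Type} [Group G] (a b : G) (w : List (ℕ × Bool)) : G := (w.map (lt a b)).prod

lemma ev_cons {G : Type} [Group G] (a b : G) (l : ℕ × Bool) (w : List (ℕ × Bool)) :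
    ev a b (l :: w) = lt a b l * ev a b w := by simp [ev]

lemma ev_nil {G : Type} [Group G] (a b : G) : ev a b [] = 1 := by simp [ev]

section
variable {G : Type} [Group G] {a b : G} (h : a * b * a = b * a * b)
include h

lemma D_a : a * (a * b * a) = (a * b * a) * b := by
  conv_rhs => rw [mul_assoc (a * b) a b, mul_assoc a b (a * b), ← mul_assoc b a b, ← h]

lemma D_b : b * (a * b * a) = (a * b * a) * a := by
  conv_rhs => rw [h]
  group

lemma D_pow_even (n : ℤ) (g : G) (hg : g * (a * b * a) ^ 2 = (a * b * a) ^ 2 * g) :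
    g * (a * b * a) ^ (2 * n) = (a * b * a) ^ (2 * n) * g := by
  have h1 : Commute g ((a * b * a) ^ 2) := hg
  have h2 := h1.zpow_right n
  have h3 : ((a * b * a) ^ 2) ^ n = (a * b * a) ^ (2 * n) := by
    rw [← zpow_natCast, ← zpow_mul]; norm_num
  rw [h3] at h2
  exact h2

lemma D_sq_a : a * (a * b * a) ^ 2 = (a * b * a) ^ 2 * a := by
  have h1 := D_a h
  have h2 := D_b h
  calc a * (a * b * a) ^ 2 = (a * (a * b * a)) * (a * b * a) := by
        rw [pow_two]; exact (mul_assoc a (a * b * a) (a * b * a)).symm
    _ = (a * b * a) * (b * (a * b * a)) := by rw [h1, mul_assoc (a * b * a)]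
    _ = _ := by rw [h2, pow_two, mul_assoc (a * b * a)]

lemma D_sq_b : b * (a * b * a) ^ 2 = (a * b * a) ^ 2 * b := by
  have h1 := D_a h
  have h2 := D_b h
  calc b * (a * b * a) ^ 2 = (b * (a * b * a)) * (a * b * a) := by
        rw [pow_two]; exact (mul_assoc b (a * b * a) (a * b * a)).symm
    _ = (a * b * a) * (a * (a * b * a)) := by rw [h2, mul_assoc (a * b * a)]
    _ = _ := by rw [h1, pow_two, mul_assoc (a * b * a)]

lemma D_ai : a⁻¹ * (a * b * a) = (a * b * a) * b⁻¹ := by
  have := D_a h
  calc a⁻¹ * (a * b * a) = a⁻¹ * ((a * b * a) * b) * b⁻¹ := by group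
    _ = a⁻¹ * (a * (a * b * a)) * b⁻¹ := by rw [this]
    _ = _ := by group

lemma D_bi : b⁻¹ * (a * b * a) = (a * b * a) * a⁻¹ := by
  have := D_b h
  calc b⁻¹ * (a * b * a) = b⁻¹ * ((a * b * a) * a) * a⁻¹ := by group
    _ = b⁻¹ * (b * (a * b * a)) * a⁻¹ := by rw [this]
    _ = _ := by group

lemma D_even (n : ℤ) (l : ℕ × Bool) :
    lt a b l * (a * b * a) ^ (2 * n) = (a * b * a) ^ (2 * n) * lt a b l := by
  have ha : Commute a ((a * b * a) ^ 2) := D_sq_a h
  have hb : Commute b ((a * b * a) ^ 2) := D_sq_b h
  refine D_pow_even h n _ ?_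
  unfold lt
  split_ifs
  · exact ha
  · exact ha.inv_left
  · exact hb
  · exact hb.inv_left

lemma D_one (l : ℕ × Bool) (hl : l.1 < 2) :
    lt a b l * (a * b * a) = (a * b * a) * lt a b (1 - l.1, l.2) := by
  obtain ⟨k, s⟩ := l
  have hk : k = 0 ∨ k = 1 := by simp only at hl; omega
  rcases hk with rfl | rfl <;> cases s
  · simpa [lt] using D_ai h
  · simpa [lt] using D_a h
  · simpa [lt] using D_bi h
  · simpa [lt] using D_b h

end

/-- a positive letter -/
def Pos (l : ℕ × Bool) : Prop := l = (1, true) ∨ l = (0, false)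

/-- adding one letter to `Δ^p w Δ^r` -/
lemma add_letter (l : ℕ × Bool) (hl : l.1 < 2) (w : List (ℕ × Bool)) (hw : ∀ l ∈ w, Pos l) :
    ∃ (p r : ℤ) (w' : List (ℕ × Bool)), (∀ l ∈ w', Pos l) ∧ w'.length ≤ w.length + 1 ∧
      ∀ (G : Type) [Group G] (a b : G), a * b * a = b * a * b →
        lt a b l * ev a b w = (a * b * a) ^ p * ev a b w' * (a * b * a) ^ r := by
  obtain ⟨k, s⟩ := l
  have hk : k = 0 ∨ k = 1 := by simp only at hl; omega
  rcases hk with rfl | rfl <;> cases s
  · -- the letter is positive
    refine ⟨0, 0, (0, false) :: w, ?_, le_of_eq (by simp), fun G _ a b h => by rw [ev_cons]; simp⟩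
    intro l hl'
    rcases List.mem_cons.1 hl' with rfl | h
    · exact Or.inr rfl
    · exact hw l h
  · -- the letter is `a`
    cases w with
    | nil =>
      refine ⟨1, -1, [(1, true)], ?_, by simp, fun G _ a b h => ?_⟩
      · intro l hl'
        rw [List.mem_singleton] at hl'
        exact Or.inl hl'
      · rw [ev_cons, ev_nil, mul_one, mul_one, zpow_one, zpow_neg_one]
        have h1 := D_a h
        have : lt a b (0, true) = a := by simp [lt]
        have h2 : lt a b (1, true) = b := by simp [lt]
        rw [this, h2, ← h1]; group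
    | cons l' w1 =>
      have hw1 : ∀ l ∈ w1, Pos l := fun l h => hw l (List.mem_cons_of_mem _ h)
      rcases hw l' List.mem_cons_self with rfl | rfl
      · refine ⟨1, 0, (0, false) :: w1, ?_, by simp, fun G _ a b h => ?_⟩
        · intro l hl'
          rcases List.mem_cons.1 hl' with rfl | h
          · exact Or.inr rfl
          · exact hw1 l h
        · rw [ev_cons, ev_cons]
          have e1 : lt a b (0, true) = a := by simp [lt]
          have e2 : lt a b (1, true) = b := by simp [lt]
          have e3 : lt a b (0, false) = a⁻¹ := by simp [lt]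
          rw [e1, e2, e3]; group
      · refine ⟨0, 0, w1, hw1, by simp only [List.length_cons]; omega, fun G _ a b h => ?_⟩
        rw [ev_cons]
        have e1 : lt a b (0, true) = a := by simp [lt]
        have e3 : lt a b (0, false) = a⁻¹ := by simp [lt]
        rw [e1, e3]; group
  · -- the letter is `b⁻¹`
    cases w with
    | nil =>
      refine ⟨1, -1, [(0, false)], ?_, by simp, fun G _ a b h => ?_⟩
      · intro l hl'
        rw [List.mem_singleton] at hl'
        exact Or.inr hl'
      · rw [ev_cons, ev_nil, mul_one, mul_one, zpow_one, zpow_neg_one]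
        have h1 := D_bi h
        have : lt a b (1, false) = b⁻¹ := by simp [lt]
        have h2 : lt a b (0, false) = a⁻¹ := by simp [lt]
        rw [this, h2, ← h1]; group
    | cons l' w1 =>
      have hw1 : ∀ l ∈ w1, Pos l := fun l h => hw l (List.mem_cons_of_mem _ h)
      rcases hw l' List.mem_cons_self with rfl | rfl
      · refine ⟨0, 0, w1, hw1, by simp only [List.length_cons]; omega, fun G _ a b h => ?_⟩
        rw [ev_cons]
        have e1 : lt a b (1, true) = b := by simp [lt]
        have e3 : lt a b (1, false) = b⁻¹ := by simp [lt]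
        rw [e1, e3]; group
      · refine ⟨-1, 0, (1, true) :: w1, ?_, by simp, fun G _ a b h => ?_⟩
        · intro l hl'
          rcases List.mem_cons.1 hl' with rfl | h
          · exact Or.inl rfl
          · exact hw1 l h
        · rw [ev_cons, ev_cons]
          have e1 : lt a b (1, false) = b⁻¹ := by simp [lt]
          have e2 : lt a b (0, false) = a⁻¹ := by simp [lt]
          have e3 : lt a b (1, true) = b := by simp [lt]
          rw [e1, e2, e3, zpow_zero, mul_one, zpow_neg_one]
          conv_rhs => rw [h]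
          group
  · refine ⟨0, 0, (1, true) :: w, ?_, le_of_eq (by simp), fun G _ a b h => by rw [ev_cons]; simp⟩
    intro l hl'
    rcases List.mem_cons.1 hl' with rfl | h
    · exact Or.inl rfl
    · exact hw l h

/-- **the reduction to positive words** -/
theorem reduce (u : List (ℕ × Bool)) (hu : ∀ l ∈ u, l.1 < 2) :
    ∃ (p r : ℤ) (w : List (ℕ × Bool)), (∀ l ∈ w, Pos l) ∧ w.length ≤ u.length ∧
      ∀ (G : Type) [Group G] (a b : G), a * b * a = b * a * b →
        ev a b u = (a * b * a) ^ p * ev a b w * (a * b * a) ^ r := by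
  induction u with
  | nil => exact ⟨0, 0, [], by simp, le_rfl, fun G _ a b _ => by simp⟩
  | cons l u ih =>
    obtain ⟨p, r, w, hw, hlen, hG⟩ := ih fun l' h => hu l' (List.mem_cons_of_mem _ h)
    have hl := hu l List.mem_cons_self
    rcases Int.even_or_odd' p with ⟨n, hn | hn⟩
    · obtain ⟨p', r', w', hw', hlen', hG'⟩ := add_letter l hl w hw
      refine ⟨p + p', r' + r, w', hw', by rw [List.length_cons]; omega, fun G _ a b h => ?_⟩
      rw [ev_cons, hG G a b h, ← mul_assoc, ← mul_assoc, hn, D_even h, mul_assoc ((a * b * a) ^ (2 * n)),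
        hG' G a b h, zpow_add, zpow_add]
      group
    · obtain ⟨p', r', w', hw', hlen', hG'⟩ := add_letter (1 - l.1, l.2) (by simp only; omega) w hw
      refine ⟨p + p', r' + r, w', hw', by rw [List.length_cons]; omega, fun G _ a b h => ?_⟩
      rw [ev_cons, hG G a b h, ← mul_assoc, ← mul_assoc, hn, zpow_add, zpow_one, ← mul_assoc,
        D_even h, mul_assoc ((a * b * a) ^ (2 * n)) (lt a b l), D_one h l hl,
        mul_assoc ((a * b * a) ^ (2 * n)), mul_assoc (a * b * a) _ (ev a b w), hG' G a b h, zpow_add,
        zpow_add, zpow_add, zpow_one]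
      simp only [mul_assoc]

end Pool.Agent.V11115.VC
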