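import Pool.Agent.V11115.VC.E
import Pool.Agent.V11115.VC.G

/-!
The lower bound for the traces of all palindromic braids.
-/

set_option autoImplicit false

namespace Pool.Agent.V11115.VC

open Matrix Finset Filter Topology Pool.Agent.H550R3.Jones Pool.Agent.W715.VC

variable {N : ℕ}

/-! ### the Gaussian binomials are exponentially large -/

lemma sin_two {x y : ℝ} (hx : 0 ≤ x) (hxy : 3 * x ≤ y) (hy : y ≤ Real.pi / 2) :
    2 * Real.sin x ≤ Real.sin y := by
  have h1 : Real.sin (3 * x) ≤ Real.sin y :=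
    Real.sin_le_sin_of_le_of_le_pi_div_two (by linarith [Real.pi_pos]) hy hxy
  have h2 : Real.sin x ≤ 1 / 2 := by
    rw [← Real.sin_pi_div_six]
    exact Real.sin_le_sin_of_le_of_le_pi_div_two (by linarith [Real.pi_pos])
      (by linarith [Real.pi_pos]) (by linarith)
  have h3 : 0 ≤ Real.sin x := Real.sin_nonneg_of_nonneg_of_le_pi hx (by linarith [Real.pi_pos])
  rw [Real.sin_three_mul] at h1
  nlinarith [mul_nonneg h3 h3, mul_nonneg h3 (by linarith : 0 ≤ 1 / 2 - Real.sin x)]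

lemma qb_large {K : ℕ} (hK : 2 * K ≤ N) : (2 : ℝ) ^ ((K + 1) / 4) ≤ qb N K (K / 2) := by
  rcases Nat.eq_zero_or_pos N with h0 | hN
  · have : K = 0 := by omega
    subst this
    simp [qb]
  have hNR : (0 : ℝ) < N := by exact_mod_cast hN
  unfold qb
  set c := (K + 1) / 4 with hc
  obtain ⟨r, hr⟩ : ∃ r, K / 2 = c + r := ⟨K / 2 - c, by omega⟩
  rw [hr, prod_range_add]
  have hang : ∀ k : ℤ, sn N k = Real.sin (Real.pi * k / N) := fun k => rfl
  have h1 : (2 : ℝ) ^ c ≤ ∏ l ∈ range c, (sn N ((K : ℤ) - l) / sn N ((l : ℤ) + 1)) := by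
    have e : (2 : ℝ) ^ c = ∏ _l ∈ range c, (2 : ℝ) := by rw [prod_const, card_range]
    rw [e]
    refine prod_le_prod (fun _ _ => by norm_num) fun l hl => ?_
    rw [mem_range] at hl
    have hp : 0 < sn N ((l : ℤ) + 1) := sn_pos (by omega) (by omega)
    rw [le_div_iff₀ hp, hang, hang]
    refine sin_two (by positivity) ?_ ?_
    · have : 3 * ((l : ℤ) + 1) ≤ (K : ℤ) - l := by omega
      have h2 : 3 * (((l : ℤ) + 1 : ℤ) : ℝ) ≤ (((K : ℤ) - l : ℤ) : ℝ) := by exact_mod_cast this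
      rw [← mul_div_assoc]
      refine div_le_div_of_nonneg_right ?_ hNR.le
      nlinarith [Real.pi_pos]
    · have : 2 * ((K : ℤ) - l) ≤ N := by omega
      have h2 : 2 * (((K : ℤ) - l : ℤ) : ℝ) ≤ (N : ℝ) := by exact_mod_cast this
      rw [div_le_div_iff₀ hNR (by norm_num)]
      nlinarith [Real.pi_pos]
  have h2 : (1 : ℝ) ≤ ∏ l ∈ range r, (sn N ((K : ℤ) - ((c + l : ℕ) : ℤ)) /
      sn N (((c + l : ℕ) : ℤ) + 1)) := by
    refine one_le_prod fun l hl => ?_
    rw [mem_range] at hl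
    have hp : 0 < sn N (((c + l : ℕ) : ℤ) + 1) := sn_pos (by omega) (by omega)
    rw [one_le_div hp, hang, hang]
    refine Real.sin_le_sin_of_le_of_le_pi_div_two ?_ ?_ ?_
    · have : 0 ≤ Real.pi * ((((c + l : ℕ) : ℤ) + 1 : ℤ) : ℝ) / N := by positivity
      linarith [Real.pi_pos]
    · have : 2 * ((K : ℤ) - ((c + l : ℕ) : ℤ)) ≤ N := by omega
      have h2 : 2 * (((K : ℤ) - ((c + l : ℕ) : ℤ) : ℤ) : ℝ) ≤ (N : ℝ) := by exact_mod_cast this
      rw [div_le_div_iff₀ hNR (by norm_num)]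
      nlinarith [Real.pi_pos]
    · refine div_le_div_of_nonneg_right ?_ hNR.le
      have : (((c + l : ℕ) : ℤ) + 1) ≤ (K : ℤ) - ((c + l : ℕ) : ℤ) := by omega
      have h2 : (((((c + l : ℕ) : ℤ) + 1 : ℤ)) : ℝ) ≤ (((K : ℤ) - ((c + l : ℕ) : ℤ) : ℤ) : ℝ) := by
        exact_mod_cast this
      exact mul_le_mul_of_nonneg_left h2 Real.pi_pos.le
  calc (2 : ℝ) ^ c = 2 ^ c * 1 := (mul_one _).symm
    _ ≤ _ := mul_le_mul h1 h2 zero_le_one (le_trans (by positivity) h1)

/-! ### positive words -/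

lemma dual_pos {w : List (ℕ × Bool)} (hw : ∀ l ∈ w, Pos l) : ∀ l ∈ dual w, Pos l := by
  intro l hl
  unfold dual at hl
  rw [List.mem_reverse, List.mem_map] at hl
  obtain ⟨l', hl', rfl⟩ := hl
  rcases hw l' hl' with rfl | rfl
  · right; simp [dl]
  · left; simp [dl]

/-- the traces of the palindromes of positive words -/
lemma trace_pos {w : List (ℕ × Bool)} (hw : ∀ l ∈ w, Pos l) (hw0 : w ≠ []) {k : ℕ}
    (hk : 8 * w.length * (k * k) ≤ N) (hk1 : 1 ≤ k) :
    (2 : ℝ) ^ (k / 4) / 4 - (N : ℝ) ^ 3 - 2 ≤ (rep3 N (w ++ dual w)).trace.re := by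
  have hlen : 1 ≤ w.length := List.length_pos_iff.2 hw0
  have hkN : 8 * (k * k) ≤ N := le_trans (by nlinarith) hk
  have hkk : k ≤ k * k := Nat.le_mul_self k
  have hN : 0 < N := by nlinarith
  -- the parity
  obtain ⟨K, m, hKm, hKk, hKk', hm⟩ : ∃ K m : ℕ, N + K = 2 * m + 1 ∧ K ≤ k ∧ k ≤ K + 1 ∧ m < N := by
    rcases Nat.even_or_odd' (N + k) with ⟨c, hc | hc⟩
    · exact ⟨k - 1, c - 1, by omega, by omega, by omega, by omega⟩
    · exact ⟨k, c, by omega, le_rfl, by omega, by omega⟩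
  have hu : ∀ l ∈ w, l.1 < 2 := fun l hl => by rcases hw l hl with rfl | rfl <;> norm_num
  set ε : ℝ := 1 / (2 * w.length) with hε
  have hlenR : (1 : ℝ) ≤ w.length := by exact_mod_cast hlen
  have hNR : (0 : ℝ) < N := by exact_mod_cast hN
  have hε1 : ∀ n : ℤ, |n| ≤ K * K → ‖rt N ^ n - 1‖ ≤ ε := by
    intro n hn
    refine (rt_near N n).trans ?_
    have h1 : |(n : ℝ)| ≤ (K : ℝ) * K := by exact_mod_cast hn
    have h2 : (K : ℝ) * K ≤ k * k := by
      have : (K : ℝ) ≤ k := by exact_mod_cast hKk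
      nlinarith [Nat.cast_nonneg (α := ℝ) K]
    have h3 : 8 * (w.length : ℝ) * (k * k) ≤ N := by exact_mod_cast hk
    rw [hε, div_le_div_iff₀ hNR (by positivity)]
    have h4 := Real.pi_lt_d2
    have h5 : Real.pi * |(n : ℝ)| ≤ 4 * (k * k) := by
      have := abs_nonneg (n : ℝ)
      nlinarith [Real.pi_pos]
    nlinarith
  have hd : dual w ≠ [] := by
    unfold dual
    simpa using hw0
  obtain ⟨z, hz, hz1, hz2⟩ := form_growth hm hKm hε1 (h := K / 2) (by omega) (dual w)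
    (dual_pos hw) hd (by
      have : (dual w).length = w.length := by unfold dual; simp
      rw [this, hε]
      field_simp
      norm_num)
  have hq := qb_large (N := N) (K := K) (by omega)
  have hqp : 0 < qb N K (K / 2) := qb_pos (by omega) (by omega)
  have hR := rayleigh hN hu hm (by omega) hz (by rw [hz1]; exact hqp)
  have h6 : qb N K (K / 2) / 4 ≤ SS1 N m (rep3 N (dual w) *ᵥ z) / SS1 N m z := by
    rw [hz1, le_div_iff₀ hqp]
    refine le_trans (le_of_eq ?_) hz2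
    ring
  have h7 : (2 : ℝ) ^ (k / 4) ≤ 2 ^ ((K + 1) / 4) :=
    pow_le_pow_right₀ (by norm_num) (Nat.div_le_div_right hKk')
  linarith

/-! ### all words -/

/-- the unit of a word -/
noncomputable def uA (N : ℕ) : (M3 N)ˣ :=
  ⟨on12 (PP N), on12 (QQ N), by rw [on12_mul, PP_QQ, on12_one], by rw [on12_mul, QQ_PP, on12_one]⟩

noncomputable def uB (N : ℕ) : (M3 N)ˣ :=
  ⟨on23 (PP N), on23 (QQ N), by rw [on23_mul, PP_QQ, on23_one], by rw [on23_mul, QQ_PP, on23_one]⟩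

lemma ev_rep3 {u : List (ℕ × Bool)} (hu : ∀ l ∈ u, l.1 < 2) :
    ((ev (uA N) (uB N) u : (M3 N)ˣ) : M3 N) = rep3 N u := by
  induction u with
  | nil => rw [ev_nil, rep3_nil]; rfl
  | cons l u ih =>
    rw [ev_cons, Units.val_mul, rep3_cons, ih fun l' h => hu l' (List.mem_cons_of_mem _ h)]
    congr 1
    have hl := hu l List.mem_cons_self
    obtain ⟨k, s⟩ := l
    have hk : k = 0 ∨ k = 1 := by simp only at hl; omega
    rcases hk with rfl | rfl <;> cases s <;> simp [lt, g3, uA, uB]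

/-- the inverse of the adjoint, as an automorphism -/
noncomputable def theta (N : ℕ) : (M3 N)ˣ →* (M3 N)ˣ where
  toFun X := ⟨hadj (X⁻¹ : (M3 N)ˣ), hadj (X : M3 N), by
    rw [← hadj_mul, Units.mul_inv, hadj_one], by rw [← hadj_mul, Units.inv_mul, hadj_one]⟩
  map_one' := by
    ext1
    simp [hadj_one]
  map_mul' X Y := by
    ext1
    simp [_root_.mul_inv_rev, hadj_mul]

lemma theta_A (hN : 0 < N) : theta N (uA N) = uB N := by
  ext1
  change hadj (on12 (QQ N)) = on23 (PP N)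
  have := hadj_g3 (N := N) hN (l := (0, false)) (by norm_num)
  simpa [g3, dl] using this

lemma theta_B (hN : 0 < N) : theta N (uB N) = uA N := by
  ext1
  change hadj (on23 (QQ N)) = on12 (PP N)
  have := hadj_g3 (N := N) hN (l := (1, false)) (by norm_num)
  simpa [g3, dl] using this

lemma braid_AB : uA N * uB N * uA N = uB N * uA N * uB N := by
  ext1
  exact YB3

/-- the trace depends only on the positive word -/
lemma trace_reduce (hN : 0 < N) {u w : List (ℕ × Bool)} (hu : ∀ l ∈ u, l.1 < 2)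
    (hw : ∀ l ∈ w, l.1 < 2) {p r : ℤ}
    (h : ev (uA N) (uB N) u = (uA N * uB N * uA N) ^ p * ev (uA N) (uB N) w *
      (uA N * uB N * uA N) ^ r) :
    (rep3 N (u ++ dual u)).trace = (rep3 N (w ++ dual w)).trace := by
  set D := uA N * uB N * uA N with hD
  have hthD : theta N D = D := by
    rw [hD, map_mul, map_mul, theta_A hN, theta_B hN, braid_AB]
  have hthDp : ∀ k : ℤ, theta N (D ^ k) = D ^ k := fun k => by rw [map_zpow, hthD]
  -- adjoint of a unit
  have hadjU : ∀ X : (M3 N)ˣ, hadj (X : M3 N) = (((theta N X)⁻¹ : (M3 N)ˣ) : M3 N) := fun X => rfl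
  have h1 : ∀ v : List (ℕ × Bool), (∀ l ∈ v, l.1 < 2) → rep3 N (v ++ dual v) =
      ((ev (uA N) (uB N) v * (theta N (ev (uA N) (uB N) v))⁻¹ : (M3 N)ˣ) : M3 N) := by
    intro v hv
    rw [rep3_append, ← hadj_rep3 hN hv, ← ev_rep3 hv, hadjU, Units.val_mul]
  rw [h1 u hu, h1 w hw, h, map_mul, map_mul, hthDp, hthDp]
  set W := ev (uA N) (uB N) w
  have e1 : D ^ p * W * D ^ r * (D ^ p * theta N W * D ^ r)⁻¹ =
      D ^ p * (W * (theta N W)⁻¹) * (D ^ p)⁻¹ := by group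
  rw [e1, Units.val_mul, Units.val_mul, Matrix.trace_mul_comm, ← mul_assoc, ← Units.val_mul,
    inv_mul_cancel, Units.val_one, one_mul]

/-- the matrix of a word in `SL(2, ℤ)` -/
def mat (u : List (ℕ × Bool)) : Matrix (Fin 2) (Fin 2) ℤ :=
  (u.map fun l => if l.1 = 0 then (if l.2 then !![1, 1; 0, 1] else !![1, -1; 0, 1])
    else (if l.2 then !![1, 0; -1, 1] else !![1, 0; 1, 1])).prod

def mA : (Matrix (Fin 2) (Fin 2) ℤ)ˣ := ⟨!![1, 1; 0, 1], !![1, -1; 0, 1], by decide, by decide⟩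
def mB : (Matrix (Fin 2) (Fin 2) ℤ)ˣ := ⟨!![1, 0; -1, 1], !![1, 0; 1, 1], by decide, by decide⟩

lemma ev_mat (u : List (ℕ × Bool)) :
    ((ev mA mB u : (Matrix (Fin 2) (Fin 2) ℤ)ˣ) : Matrix (Fin 2) (Fin 2) ℤ) = mat u := by
  induction u with
  | nil => rw [ev_nil]; rfl
  | cons l u ih =>
    rw [ev_cons, Units.val_mul, ih]
    unfold mat
    rw [List.map_cons, List.prod_cons]
    congr 1
    unfold lt
    split_ifs <;> rfl

lemma mat_dual (u : List (ℕ × Bool)) (hu : ∀ l ∈ u, l.1 < 2) : mat (dual u) = (mat u)ᵀ := by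
  induction u with
  | nil => simp [mat, dual]
  | cons l u ih =>
    have hl := hu l List.mem_cons_self
    have h1 : dual (l :: u) = dual u ++ [dl l] := by simp [dual]
    have h2 : mat (dual u ++ [dl l]) = mat (dual u) * mat [dl l] := by simp [mat]
    have h3 : mat (l :: u) = mat [l] * mat u := by simp [mat]
    rw [h1, h2, h3, Matrix.transpose_mul, ih fun l' h => hu l' (List.mem_cons_of_mem _ h)]
    congr 1
    obtain ⟨k, s⟩ := l
    have hk : k = 0 ∨ k = 1 := by simp only at hl; omega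
    rcases hk with rfl | rfl <;> cases s <;> simp [mat, dl] <;> decide

/-- if the braid `u ū` is pseudo-Anosov then the positive word is not empty -/
lemma ne_nil {u w : List (ℕ × Bool)} (hu : ∀ l ∈ u, l.1 < 2) {p r : ℤ}
    (h : ev mA mB u = (mA * mB * mA) ^ p * ev mA mB w * (mA * mB * mA) ^ r)
    (htr : 2 < (mat (u ++ dual u)).trace) : w ≠ [] := by
  intro hw
  rw [hw, ev_nil, mul_one, ← _root_.zpow_add] at h
  have hS : ∀ k : ℤ, (((mA * mB * mA) ^ k : (Matrix (Fin 2) (Fin 2) ℤ)ˣ) : Matrix (Fin 2) (Fin 2) ℤ) *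
      (((mA * mB * mA) ^ k : (Matrix (Fin 2) (Fin 2) ℤ)ˣ) : Matrix (Fin 2) (Fin 2) ℤ)ᵀ = 1 := by
    have hval : ((mA * mB * mA : (Matrix (Fin 2) (Fin 2) ℤ)ˣ) : Matrix (Fin 2) (Fin 2) ℤ) =
        !![0, 1; -1, 0] := by decide
    have hval' : (((mA * mB * mA)⁻¹ : (Matrix (Fin 2) (Fin 2) ℤ)ˣ) : Matrix (Fin 2) (Fin 2) ℤ) =
        !![0, -1; 1, 0] := by decide
    have hn : ∀ n : ℕ, (((mA * mB * mA) ^ n : (Matrix (Fin 2) (Fin 2) ℤ)ˣ) :
        Matrix (Fin 2) (Fin 2) ℤ) * (((mA * mB * mA) ^ n : (Matrix (Fin 2) (Fin 2) ℤ)ˣ) :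
        Matrix (Fin 2) (Fin 2) ℤ)ᵀ = 1 := by
      intro n
      induction n with
      | zero => simp
      | succ n ih =>
        rw [pow_succ', Units.val_mul, Matrix.transpose_mul, mul_assoc, ← mul_assoc _ _
          (((mA * mB * mA : (Matrix (Fin 2) (Fin 2) ℤ)ˣ) : Matrix (Fin 2) (Fin 2) ℤ)ᵀ), ih, one_mul,
          hval]
        decide
    have hn' : ∀ n : ℕ, ((((mA * mB * mA)⁻¹) ^ n : (Matrix (Fin 2) (Fin 2) ℤ)ˣ) :
        Matrix (Fin 2) (Fin 2) ℤ) * ((((mA * mB * mA)⁻¹) ^ n : (Matrix (Fin 2) (Fin 2) ℤ)ˣ) :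
        Matrix (Fin 2) (Fin 2) ℤ)ᵀ = 1 := by
      intro n
      induction n with
      | zero => simp
      | succ n ih =>
        rw [pow_succ', Units.val_mul, Matrix.transpose_mul, mul_assoc, ← mul_assoc _ _
          ((((mA * mB * mA)⁻¹ : (Matrix (Fin 2) (Fin 2) ℤ)ˣ) : Matrix (Fin 2) (Fin 2) ℤ)ᵀ), ih,
          one_mul, hval']
        decide
    intro k
    rcases Int.eq_nat_or_neg k with ⟨n, rfl | rfl⟩
    · rw [zpow_natCast]; exact hn n
    · rw [_root_.zpow_neg, zpow_natCast, ← inv_pow]; exact hn' n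
  have h1 : mat (u ++ dual u) = 1 := by
    have h2 : mat (u ++ dual u) = mat u * mat (dual u) := by simp [mat]
    rw [h2, mat_dual u hu, ← ev_mat u, h]
    exact hS _
  rw [h1] at htr
  simp at htr

/-- **the lower bound for all palindromic pseudo-Anosov braids** -/
theorem trace_large {u : List (ℕ × Bool)} (hu : ∀ l ∈ u, l.1 < 2)
    (htr : 2 < (mat (u ++ dual u)).trace) {k : ℕ} (hk : 8 * u.length * (k * k) ≤ N) (hk1 : 1 ≤ k) :
    (2 : ℝ) ^ (k / 4) / 4 - (N : ℝ) ^ 3 - 2 ≤ (rep3 N (u ++ dual u)).trace.re := by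
  obtain ⟨p, r, w, hw, hlen, hG⟩ := reduce u hu
  have hw2 : ∀ l ∈ w, l.1 < 2 := fun l hl => by rcases hw l hl with rfl | rfl <;> norm_num
  have hwn := ne_nil hu (hG _ mA mB (by decide)) htr
  have hlw : 1 ≤ w.length := List.length_pos_iff.2 hwn
  have hN : 0 < N := by nlinarith
  rw [trace_reduce hN hu hw2 (hG _ (uA N) (uB N) braid_AB)]
  exact trace_pos hw hwn (le_trans (Nat.mul_le_mul_right _ (by omega)) hk) hk1

end Pool.Agent.V11115.VC
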